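import Mathlib

namespace Pool.Agent.MP_d2168f_ag

/-- The Pythagoras number: the least `n ≥ 1` such that every sum of squares in `A` is a sum of
`n` squares in `A`, and `⊤` if there is no such `n`. -/
noncomputable def pythagorasNumber (A : Type*) [CommRing A] : ℕ∞ :=
  sInf {n : ℕ∞ | ∃ m : ℕ, n = m ∧ 1 ≤ m ∧
    ∀ a : A, IsSumSq a → ∃ v : Fin m → A, a = ∑ i, v i ^ 2}

/-- The elements of the coordinate ring `B` without zero at a `K`-point. -/
def nonvanishing (K B : Type*) [Field K] [CommRing B] [Algebra K B] : Submonoid B where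
  carrier := {g | ∀ x : B →ₐ[K] K, x g ≠ 0}
  mul_mem' := fun ha hb x => by rw [map_mul]; exact mul_ne_zero (ha x) (hb x)
  one_mem' := fun x => by rw [map_one]; exact one_ne_zero

end Pool.Agent.MP_d2168f_ag
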