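import Pool.Agent.MP_d2168f_ag.Finite

/-!
The descent: a reflection lowers the order of the pole at one point and creates no new pole.
-/

namespace Pool.Agent.MP_d2168f_ag

variable {K A F : Type*} [Field K] [CommRing A] [Algebra K A] [Field F] [Algebra A F]

/-- every proper ideal vanishes at a rational point -/
def Pts (K A : Type*) [Field K] [CommRing A] [Algebra K A] : Prop :=
  ∀ I : Ideal A, I ≠ ⊤ → ∃ φ : A →ₐ[K] K, I ≤ pt φ

lemma Pts.one_mem (h : Pts K A) {I : Ideal A} (hI : ∀ φ : A →ₐ[K] K, ∃ a ∈ I, φ a ≠ 0) :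
    (1 : A) ∈ I := by
  by_contra h1
  obtain ⟨φ, hφ⟩ := h I (fun h => h1 (h ▸ Submodule.mem_top))
  obtain ⟨a, ha, ha'⟩ := hI φ
  exact ha' (hφ ha)

lemma Pts.int (h : Pts K A) {r : F}
    (hr : ∀ φ : A →ₐ[K] K, ∃ a, φ a ≠ 0 ∧ Int A (algebraMap A F a * r)) : Int A r := by
  have := h.one_mem (I := den A fun _ : Unit => r) fun φ => by
    obtain ⟨a, ha, har⟩ := hr φ
    exact ⟨a, fun _ => har, ha⟩
  simpa using this ()

lemma eval_rel [Algebra K F] [IsScalarTower K A F] {ι : Type*} (u : ι → F) (d : A) (a : ι → A)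
    (ha : ∀ i, algebraMap A F (a i) = algebraMap A F d * u i) (ψ : A →ₐ[K] K) (η : ι → K)
    (hη : ∀ i, ψ (a i) = ψ d * η i) (Φ : MvPolynomial ι K) :
    ∃ N, ∃ c : A, algebraMap A F c = algebraMap A F d ^ N * MvPolynomial.aeval u Φ ∧
      ψ c = ψ d ^ N * MvPolynomial.eval η Φ := by
  induction Φ using MvPolynomial.induction_on with
  | C r => exact ⟨0, algebraMap K A r, by simp [← IsScalarTower.algebraMap_apply], by simp⟩
  | add p q hp hq =>
    obtain ⟨N, c, h1, h2⟩ := hp
    obtain ⟨M, c', h1', h2'⟩ := hq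
    refine ⟨N + M, d ^ M * c + d ^ N * c', ?_, ?_⟩
    · simp only [map_add, map_mul, map_pow, h1, h1']; ring
    · simp only [map_add, map_mul, map_pow, h2, h2']; ring
  | mul_X p i hp =>
    obtain ⟨N, c, h1, h2⟩ := hp
    refine ⟨N + 1, c * a i, ?_, ?_⟩
    · simp only [map_mul, h1, ha, MvPolynomial.aeval_X]; ring
    · simp only [map_mul, h2, hη, MvPolynomial.eval_X]; ring

lemma fg_uniform [IsNoetherianRing A] (z : A →ₐ[K] K) (D : Ideal A) (W : F)
    (h : ∀ d ∈ D, ∃ a, z a ≠ 0 ∧ Int A (algebraMap A F a * (algebraMap A F d * W))) :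
    ∃ a, z a ≠ 0 ∧ ∀ d ∈ D, Int A (algebraMap A F d * (algebraMap A F a * W)) := by
  classical
  obtain ⟨S, hS⟩ := (IsNoetherian.noetherian D : D.FG)
  have h' : ∀ d, ∃ a, z a ≠ 0 ∧
      (d ∈ D → Int A (algebraMap A F a * (algebraMap A F d * W))) := by
    intro d
    by_cases hd : d ∈ D
    · obtain ⟨a, ha, had⟩ := h d hd
      exact ⟨a, ha, fun _ => had⟩
    · exact ⟨1, by simp, fun h => absurd h hd⟩
  choose a ha had using h'
  refine ⟨∏ d ∈ S, a d, ?_, ?_⟩
  · rw [map_prod]
    exact Finset.prod_ne_zero_iff.mpr fun d _ => ha d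
  · have : D ≤ den A fun _ : Unit => algebraMap A F (∏ d ∈ S, a d) * W := by
      rw [← hS, Submodule.span_le]
      intro d hd _
      have hdD : d ∈ D := hS ▸ Submodule.subset_span hd
      rw [← Finset.mul_prod_erase S a hd, map_mul]
      have := (Int.map (F := F) (∏ x ∈ S.erase d, a x)).mul (had d hdD)
      convert this using 1
      ring
    exact fun d hd => this hd ()

variable [IsDomain A] [IsFractionRing A F]

lemma Param.loc {z : A →ₐ[K] K} {g π : A} {k : ℕ} (h : Param z g k π) {N : ℕ} {r : F}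
    (h1 : Int A (algebraMap A F (π ^ N) * r)) (h2 : Int A (algebraMap A F g * r)) :
    ∃ a, z a ≠ 0 ∧ Int A (algebraMap A F a * r) := by
  obtain ⟨r1, hr1⟩ := h1
  obtain ⟨r2, hr2⟩ := h2
  have e : g * r1 = π ^ N * r2 := by
    apply IsFractionRing.injective A F
    rw [map_mul, map_mul, hr1, hr2]
    ring
  obtain ⟨a, ha, w, hw⟩ := h.pow_dvd N r1 ⟨r2, e⟩
  refine ⟨a, ha, w, ?_⟩
  have hπ : algebraMap A F (π ^ N) ≠ 0 := by simpa using fun h0 => absurd h0 h.ne
  apply mul_left_cancel₀ hπ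
  rw [← map_mul, ← hw, map_mul, hr1]
  ring

lemma Param.glob (hP : Pts K A) {z : A →ₐ[K] K} {g π : A} {k : ℕ} (h : Param z g k π)
    {D : Ideal A} (hg : g ∈ D) (hbad : ∀ φ : A →ₐ[K] K, D ≤ pt φ → φ π = 0 → φ = z) {N : ℕ}
    {r : F} (h1 : Int A (algebraMap A F (π ^ N) * r))
    (h2 : ∀ d ∈ D, Int A (algebraMap A F d ^ 2 * r)) : Int A r := by
  refine hP.int fun φ => ?_
  by_cases hφ : φ π = 0
  swap
  · exact ⟨π ^ N, by simpa using fun h0 => absurd h0 hφ, h1⟩
  by_cases hD : D ≤ pt φ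
  swap
  · obtain ⟨d, hd, hd'⟩ := SetLike.not_le_iff_exists.mp hD
    exact ⟨d ^ 2, by simpa using hd', by simpa using h2 d hd⟩
  obtain rfl := hbad φ hD hφ
  obtain ⟨a, ha, har⟩ := h.loc (N := N) (r := algebraMap A F g * r)
    (by convert (Int.map g).mul h1 using 1; ring) (by convert h2 g hg using 1; ring)
  obtain ⟨a', ha', har'⟩ := h.loc (N := N) (r := algebraMap A F a * r)
    (by convert (Int.map a).mul h1 using 1; ring) (by convert har using 1; ring)
  exact ⟨a' * a, by simp [ha, ha'], by rw [map_mul, mul_assoc]; exact har'⟩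

lemma Param.approx [IsNoetherianRing A] (hP : Pts K A) {z : A →ₐ[K] K} {g π : A} {k : ℕ}
    (h : Param z g k π) (hk : 1 ≤ k) {D : Ideal A} (hg0 : g ≠ 0)
    (hbad : ∀ φ : A →ₐ[K] K, D ≤ pt φ → φ π = 0 → φ = z) {j : ℕ} {r : F}
    (hr : ∀ d ∈ D, Int A (algebraMap A F d * r)) {v x₀ : A}
    (hv : algebraMap A F v = algebraMap A F g * r) (hx₀ : v - g * x₀ ∈ pt z ^ (k + j)) :
    ∃ x : A, ∃ w : F, (∀ d ∈ D, Int A (algebraMap A F d * w)) ∧
      r = algebraMap A F x + algebraMap A F (π ^ (j + 1)) * w := by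
  let J : Ideal A :=
    { carrier := {a | ∃ x : A, ∃ w : F, (∀ d ∈ D, Int A (algebraMap A F d * w)) ∧
        algebraMap A F a * r = algebraMap A F x + algebraMap A F (π ^ (j + 1)) * w}
      add_mem' := by
        rintro a b ⟨x, w, hw, hx⟩ ⟨x', w', hw', hx'⟩
        refine ⟨x + x', w + w', fun d hd => ?_, ?_⟩
        · rw [mul_add]; exact (hw d hd).add (hw' d hd)
        · rw [map_add, map_add, add_mul, hx, hx']; ring
      zero_mem' := ⟨0, 0, fun d _ => ⟨0, by simp⟩, by simp⟩
      smul_mem' := by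
        rintro c a ⟨x, w, hw, hx⟩
        refine ⟨c * x, algebraMap A F c * w, fun d hd => ?_, ?_⟩
        · convert (Int.map c).mul (hw d hd) using 1; ring
        · rw [smul_eq_mul, map_mul, map_mul, mul_assoc, hx]; ring }
  suffices h1 : (1 : A) ∈ J by
    obtain ⟨x, w, hw, hx⟩ := h1
    exact ⟨x, w, hw, by simpa using hx⟩
  refine hP.one_mem fun φ => ?_
  by_cases hφ : φ π = 0
  swap
  · exact ⟨π ^ (j + 1), ⟨0, r, hr, by simp⟩, by simpa using hφ⟩
  by_cases hD : D ≤ pt φ
  swap
  · obtain ⟨d, hd, hd'⟩ := SetLike.not_le_iff_exists.mp hD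
    obtain ⟨x, hx⟩ := hr d hd
    exact ⟨d, ⟨x, 0, fun d _ => ⟨0, by simp⟩, by simp [hx]⟩, hd'⟩
  obtain rfl := hbad φ hD hφ
  obtain ⟨a, ha, x, y, hxy⟩ := h.gen_pow hk j _ hx₀
  have hg' : algebraMap A F g ≠ 0 := by simpa using hg0
  set W : F := algebraMap A F y / algebraMap A F g with hW
  have hgW : algebraMap A F g * W = algebraMap A F y := by rw [hW]; field_simp
  have hbW : algebraMap A F (π ^ (j + 1)) * W
      = algebraMap A F a * r - algebraMap A F (a * x₀ + x) := by
    apply mul_left_cancel₀ hg'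
    have := congrArg (algebraMap A F) hxy
    simp only [map_mul, map_add, map_sub] at this ⊢
    linear_combination algebraMap A F (π ^ (j + 1)) * hgW - this + algebraMap A F a * hv
  obtain ⟨a', ha', hW'⟩ := fg_uniform φ D W fun d hd => h.loc (N := j + 1)
    (by
      have := ((Int.map a).mul (hr d hd)).sub ((Int.map (F := F) d).mul (Int.map (a * x₀ + x)))
      convert this using 1
      linear_combination algebraMap A F d * hbW)
    (by
      have := (Int.map (F := F) d).mul (Int.map y)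
      convert this using 1
      linear_combination algebraMap A F d * hgW)
  refine ⟨a' * a, ⟨a' * (a * x₀ + x), algebraMap A F a' * W, hW', ?_⟩, by simp [ha, ha']⟩
  rw [map_mul, map_mul]
  linear_combination -algebraMap A F a' * hbW

omit [IsDomain A] [IsFractionRing A F] in
lemma reflect {n : ℕ} {e u : Fin n → F} {x : Fin n → A} {f b : A}
    (he : ∀ i, e i = algebraMap A F (x i) + algebraMap A F b * u i)
    (hf : ∑ i, e i ^ 2 = algebraMap A F f) {D : Ideal A} (hDu : D ≤ den A u)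
    (H : ∀ r : F, Int A (algebraMap A F b ^ 2 * r) →
      (∀ d ∈ D, Int A (algebraMap A F d ^ 2 * r)) → Int A r) (hq : ∑ i, u i ^ 2 ≠ 0) :
    ∃ e' : Fin n → F, ∑ i, e' i ^ 2 = algebraMap A F f ∧
      ∀ d ∈ D, ∃ d' ∈ den A e', algebraMap A F d' = algebraMap A F d * ∑ i, u i ^ 2 := by
  set q := ∑ i, u i ^ 2 with hqdef
  set β := algebraMap A F b
  set p := ∑ i, u i * algebraMap A F (x i) with hpdef
  set s := ∑ i, algebraMap A F (x i) ^ 2 with hsdef
  have hs : Int A s := Int.sum _ fun i _ => ⟨x i ^ 2, by simp⟩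
  have h2 : Int A (2 : F) := ⟨2, map_ofNat _ 2⟩
  have hexp : algebraMap A F f = s + 2 * β * p + β ^ 2 * q := by
    rw [← hf, hsdef, hpdef, hqdef, Finset.mul_sum, Finset.mul_sum, ← Finset.sum_add_distrib,
      ← Finset.sum_add_distrib]
    refine Finset.sum_congr rfl fun i _ => ?_
    rw [he i]; ring
  have hdq : ∀ d ∈ D, Int A (algebraMap A F d ^ 2 * q) := by
    intro d hd
    rw [hqdef, Finset.mul_sum]
    refine Int.sum _ fun i _ => ?_
    convert (hDu hd i).mul (hDu hd i) using 1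
    ring
  have hdp : ∀ d ∈ D, Int A (algebraMap A F d * p) := by
    intro d hd
    rw [hpdef, Finset.mul_sum]
    refine Int.sum _ fun i _ => ?_
    convert (hDu hd i).mul (Int.map (x i)) using 1
    ring
  set c := -2 * p - β * q with hcdef
  have hc : Int A c := by
    refine H c ?_ fun d hd => ?_
    · have := (Int.map b).mul (hs.sub (Int.map f))
      convert this using 1
      rw [hexp, hcdef]; ring
    · have := ((h2.mul ((Int.map d).mul (hdp d hd))).neg).sub ((Int.map b).mul (hdq d hd))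
      convert this using 1
      rw [hcdef]; ring
  have hd' : ∀ d ∈ D, Int A (algebraMap A F d * q) := by
    intro d hd
    refine H _ ?_ fun d' hd' => ?_
    · have := ((Int.map d).mul ((Int.map f).sub hs)).sub (h2.mul ((Int.map b).mul (hdp d hd)))
      convert this using 1
      rw [hexp]; ring
    · convert (Int.map d).mul (hdq d' hd') using 1
      ring
  refine ⟨fun i => algebraMap A F (x i) + c / q * u i, ?_, fun d hd => ?_⟩
  · have : ∑ i, (algebraMap A F (x i) + c / q * u i) ^ 2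
        = s + 2 * (c / q) * p + (c / q) ^ 2 * q := by
      rw [hsdef, hpdef]
      conv_rhs => rw [hqdef]
      rw [Finset.mul_sum, Finset.mul_sum, ← Finset.sum_add_distrib, ← Finset.sum_add_distrib]
      refine Finset.sum_congr rfl fun i _ => ?_
      ring
    rw [this, hexp, hcdef]
    field_simp
    ring
  · obtain ⟨d', hd''⟩ := hd' d hd
    refine ⟨d', fun i => ?_, hd''⟩
    have := ((Int.map d').mul (Int.map (x i))).add (hc.mul (hDu hd i))
    convert this using 1
    rw [hd'']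
    field_simp

omit [IsDomain A] [IsFractionRing A F] in
lemma exists_level [IsNoetherianRing A] (z : A →ₐ[K] K) {n k : ℕ} {g : A} {v : Fin n → A}
    (hv : ∀ i, v i ∈ pt z ^ k) (hne : ∀ a, z a ≠ 0 → ¬ ∀ i, g ∣ a * v i) :
    ∃ j, (∃ x : Fin n → A, ∀ i, v i - g * x i ∈ pt z ^ (k + j)) ∧
      ¬ ∃ x : Fin n → A, ∀ i, v i - g * x i ∈ pt z ^ (k + (j + 1)) := by
  classical
  by_contra hcon
  push Not at hcon
  have hall : ∀ j, ∃ x : Fin n → A, ∀ i, v i - g * x i ∈ pt z ^ (k + j) := by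
    intro j
    induction j with
    | zero => exact ⟨0, by simpa using hv⟩
    | succ j ih => exact hcon j ih
  have h1 : ∀ i, ∃ a, z a ≠ 0 ∧ a * v i ∈ Ideal.span {g} := fun i => krull z fun N => by
    obtain ⟨x, hx⟩ := hall N
    have : v i = g * x i + (v i - g * x i) := by ring
    rw [this]
    exact Submodule.add_mem_sup (Ideal.mul_mem_right _ _ (Ideal.mem_span_singleton_self g))
      (Ideal.pow_le_pow_right (by omega) (hx i))
  choose a ha hav using h1
  refine hne (∏ i, a i) ?_ fun i => ?_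
  · rw [map_prod]
    exact Finset.prod_ne_zero_iff.mpr fun i _ => ha i
  · rw [← Finset.prod_erase_mul Finset.univ a (Finset.mem_univ i), mul_assoc]
    exact Dvd.dvd.mul_left (Ideal.mem_span_singleton.mp (hav i)) _

end Pool.Agent.MP_d2168f_ag
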