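import Pool.Agent.MP_d2168f_ag.Local2

/-!
Dimension bound from the transcendence degree and the dichotomy at a regular rational point.
-/

namespace Pool.Agent.MP_d2168f_ag

variable {K A : Type*} [Field K] [CommRing A] [Algebra K A]

lemma indep_option {B C ι : Type*} [CommRing B] [IsDomain B] [Algebra K B] [CommRing C]
    [Algebra K C] (f : B →ₐ[K] C) (x : ι → B) (hx : AlgebraicIndependent K (f ∘ x)) {y : B}
    (hy : f y = 0) (hy0 : y ≠ 0) :
    AlgebraicIndependent K (fun o : Option ι => o.elim y x) := by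
  refine AlgebraicIndependent.option_iff.mpr ⟨hx.of_comp f, fun halg => ?_⟩
  apply Ideal.comap_ne_bot_of_algebraic_mem (I := RingHom.ker f) hy0 hy halg
  rw [eq_bot_iff]
  rintro ⟨z, hz⟩ hzf
  rw [Algebra.adjoin_range_eq_range_aeval] at hz
  obtain ⟨p, rfl⟩ := hz
  have h1 : f (MvPolynomial.aeval x p) = 0 := hzf
  have h2 : MvPolynomial.aeval (f ∘ x) p = 0 := by
    rw [← h1, ← AlgHom.comp_apply, MvPolynomial.comp_aeval]
    rfl
  have h3 : p = 0 := hx.eq_zero_of_aeval_eq_zero p h2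
  subst h3
  rw [Ideal.mem_bot]
  ext
  simp

lemma indep_option_quot {ι : Type*} {I J : Ideal A} (hI : I.IsPrime) (hIJ : I ≤ J) (x : ι → A)
    (hx : AlgebraicIndependent K (Ideal.Quotient.mkₐ K J ∘ x)) {y : A} (hy : y ∈ J)
    (hy0 : y ∉ I) :
    AlgebraicIndependent K (Ideal.Quotient.mkₐ K I ∘ fun o : Option ι => o.elim y x) := by
  have := indep_option (Ideal.Quotient.factorₐ K hIJ) (Ideal.Quotient.mkₐ K I ∘ x) hx
    (y := Ideal.Quotient.mkₐ K I y) (Ideal.Quotient.eq_zero_iff_mem.mpr hy)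
    (fun h => hy0 (Ideal.Quotient.eq_zero_iff_mem.mp h))
  have e : (Ideal.Quotient.mkₐ K I ∘ fun o : Option ι => o.elim y x)
      = fun o : Option ι => o.elim (Ideal.Quotient.mkₐ K I y) (Ideal.Quotient.mkₐ K I ∘ x) := by
    funext o
    cases o <;> rfl
  rw [e]
  exact this

lemma no_chain [IsDomain A] (hdep : ∀ u : Fin 3 → A, ¬ AlgebraicIndependent K u)
    {P Q M : Ideal A} (hP : P.IsPrime) (hQ : Q.IsPrime) (hM : M.IsPrime)
    (h0 : ⊥ < P) (h1 : P < Q) (h2 : Q < M) : False := by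
  obtain ⟨a1, ha1, ha1'⟩ := SetLike.exists_of_lt h0
  obtain ⟨a2, ha2, ha2'⟩ := SetLike.exists_of_lt h1
  obtain ⟨a3, ha3, ha3'⟩ := SetLike.exists_of_lt h2
  have : Nontrivial (A ⧸ M) := Ideal.Quotient.nontrivial_iff.mpr hM.ne_top
  have i0 : AlgebraicIndependent K (Ideal.Quotient.mkₐ K M ∘ (Empty.elim : Empty → A)) :=
    algebraicIndependent_empty_type_iff.mpr (algebraMap K (A ⧸ M)).injective
  have i1 := indep_option_quot hQ h2.le _ i0 ha3 ha3'
  have i2 := indep_option_quot hP h1.le _ i1 ha2 ha2'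
  have i3 := indep_option_quot Ideal.isPrime_bot h0.le _ i2 ha1 ha1'
  refine hdep _ ((i3.of_comp _).comp
    (![none, some none, some (some none)] : Fin 3 → Option (Option (Option Empty))) ?_)
  decide

lemma height_le_two [IsDomain A] (hdep : ∀ u : Fin 3 → A, ¬ AlgebraicIndependent K u)
    (M : Ideal A) [hM : M.IsPrime] : M.height ≤ (2 : ℕ) := by
  refine Ideal.height_le_iff.mpr fun Q hQ hQM => ?_
  have : Q.height ≤ (1 : ℕ) := by
    refine Ideal.height_le_iff.mpr fun P hP hPQ => ?_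
    have : P.height ≤ (0 : ℕ) := by
      refine Ideal.height_le_iff.mpr fun P' _ hP' => ?_
      exact (no_chain hdep hP hQ hM (lt_of_le_of_lt bot_le hP') hPQ hQM).elim
    exact lt_of_le_of_lt this (by norm_num)
  exact lt_of_le_of_lt this (by norm_num)

instance (φ : A →ₐ[K] K) : (pt φ).IsPrime := pt_isPrime φ

lemma exists_num (φ : A →ₐ[K] K) {x : Localization.AtPrime (pt φ)}
    (hx : x ∈ IsLocalRing.maximalIdeal (Localization.AtPrime (pt φ))) :
    ∃ s ∈ pt φ, x ∈ Ideal.span {algebraMap A (Localization.AtPrime (pt φ)) s} := by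
  obtain ⟨⟨s, u⟩, rfl⟩ := IsLocalization.mk'_surjective (pt φ).primeCompl x
  refine ⟨s, (IsLocalization.AtPrime.mk'_mem_maximal_iff _ (pt φ) s u).mp hx, ?_⟩
  simp only
  rw [IsLocalization.mk'_eq_mul_mk'_one]
  exact Ideal.mul_mem_right _ _ (Ideal.mem_span_singleton_self _)

lemma pull (φ : A →ₐ[K] K) {I : Ideal A}
    (hI : IsLocalRing.maximalIdeal (Localization.AtPrime (pt φ))
      ≤ I.map (algebraMap A (Localization.AtPrime (pt φ)))) {q : A} (hq : q ∈ pt φ) :
    ∃ a, φ a ≠ 0 ∧ a * q ∈ I := by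
  have h1 : algebraMap A (Localization.AtPrime (pt φ)) q
      ∈ IsLocalRing.maximalIdeal (Localization.AtPrime (pt φ)) :=
    (IsLocalization.AtPrime.to_map_mem_maximal_iff _ (pt φ) q).mpr hq
  obtain ⟨a, ha, haq⟩ := (IsLocalization.algebraMap_mem_map_algebraMap_iff
    (pt φ).primeCompl _ I q).mp (hI h1)
  exact ⟨a, ha, haq⟩

/-- a regular rational point of a surface: either the maximal ideal is locally principal or the
point is regular of dimension two -/
lemma dichotomy [IsDomain A] [IsNoetherianRing A]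
    (hdep : ∀ u : Fin 3 → A, ¬ AlgebraicIndependent K u) (φ : A →ₐ[K] K)
    (hreg : IsRegularLocalRing (Localization.AtPrime (pt φ))) :
    (∃ p ∈ pt φ, ∀ q ∈ pt φ, ∃ a, φ a ≠ 0 ∧ p ∣ a * q) ∨ ∃ s t, Reg2 φ s t := by
  classical
  set R := Localization.AtPrime (pt φ)
  have hdim := hreg.spanFinrank_maximalIdeal
  rw [IsLocalization.AtPrime.ringKrullDim_eq_height (pt φ) R] at hdim
  have hdim' : ((IsLocalRing.maximalIdeal R).spanFinrank : ℕ∞) = (pt φ).height := by
    exact_mod_cast hdim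
  obtain ⟨S, hS, hspan⟩ := Submodule.FG.exists_span_finset_card_eq_spanFinrank
    (IsNoetherian.noetherian (IsLocalRing.maximalIdeal R))
  have hSm : ∀ x ∈ S, x ∈ IsLocalRing.maximalIdeal R := fun x hx =>
    hspan ▸ Submodule.subset_span hx
  by_cases h1 : (pt φ).height ≤ 1
  · left
    have hc : S.card ≤ 1 := by
      rw [hS]
      have := hdim'.trans_le h1
      exact_mod_cast this
    obtain ⟨x, hx, hSx⟩ : ∃ x ∈ IsLocalRing.maximalIdeal R, ∀ y ∈ S, y = x := by
      rcases S.eq_empty_or_nonempty with rfl | ⟨x, hx⟩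
      · exact ⟨0, zero_mem _, by simp⟩
      · exact ⟨x, hSm x hx, fun y hy => Finset.card_le_one.mp hc y hy x hx⟩
    obtain ⟨p, hp, hxp⟩ := exists_num φ hx
    refine ⟨p, hp, fun q hq => ?_⟩
    obtain ⟨a, ha, haq⟩ := pull φ (I := Ideal.span {p}) (by
      rw [Ideal.map_span, Set.image_singleton, ← hspan, Submodule.span_le]
      intro y hy
      rw [hSx y hy]
      exact hxp) hq
    exact ⟨a, ha, Ideal.mem_span_singleton.mp haq⟩
  · right
    have hc : S.card ≤ 2 := by
      rw [hS]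
      have := hdim'.trans_le (height_le_two hdep (pt φ))
      exact_mod_cast this
    obtain ⟨x, hx, y, hy, hSxy⟩ : ∃ x ∈ IsLocalRing.maximalIdeal R,
        ∃ y ∈ IsLocalRing.maximalIdeal R, ∀ z ∈ S, z = x ∨ z = y := by
      rcases Nat.lt_or_ge S.card 2 with h | h
      · rcases S.eq_empty_or_nonempty with rfl | ⟨x, hx⟩
        · exact ⟨0, zero_mem _, 0, zero_mem _, by simp⟩
        · exact ⟨x, hSm x hx, x, hSm x hx, fun y hy =>
            Or.inl (Finset.card_le_one.mp (by omega) y hy x hx)⟩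
      · obtain ⟨x, y, -, rfl⟩ := Finset.card_eq_two.mp (le_antisymm hc h)
        exact ⟨x, hSm x (by simp), y, hSm y (by simp), by simp⟩
    obtain ⟨s, hs, hxs⟩ := exists_num φ hx
    obtain ⟨t, ht, hyt⟩ := exists_num φ hy
    refine ⟨s, t, hs, ht, fun q hq => ?_, fun π hπ k hk => h1 ?_⟩
    · obtain ⟨a, ha, haq⟩ := pull φ (I := Ideal.span {s, t}) (by
        rw [Ideal.map_span, Set.image_pair, ← hspan, Submodule.span_le]
        intro z hz
        rcases hSxy z hz with rfl | rfl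
        · exact Ideal.span_mono (by simp) hxs
        · exact Ideal.span_mono (by simp) hyt) hq
      exact cancel_unit φ ha (Ideal.mem_sup_left haq)
    · rw [pow_succ'] at hk
      obtain ⟨r, hr, hrk⟩ := nakayama φ hk
      refine Ideal.height_le_one_of_isPrincipal_of_mem_minimalPrimes (Ideal.span {π}) _
        ⟨⟨pt_isPrime φ, (Ideal.span_singleton_le_iff_mem _).mpr hπ⟩, ?_⟩
      rintro Q ⟨hQ, hπQ⟩ hQle
      have h2 : pt φ ^ k ≤ Q := fun q hq =>
        (hQ.mem_or_mem (hπQ (hrk q hq))).resolve_left (fun h => hr (hQle h))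
      rcases k with _ | k
      · exact absurd (eq_top_iff.mpr (by simpa using h2)) hQ.ne_top
      · exact (Ideal.IsPrime.pow_le_iff (Nat.succ_ne_zero k)).mp h2

end Pool.Agent.MP_d2168f_ag
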