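import Pool.Agent.MP_d2168f_ag.Descent

/-!
The descent step, the induction, and the abstract main theorem.
-/

namespace Pool.Agent.MP_d2168f_ag

variable {K A F : Type*} [Field K] [CommRing A] [Algebra K A] [Field F] [Algebra A F]
  [Algebra K F] [IsScalarTower K A F] [IsDomain A] [IsFractionRing A F] [IsNoetherianRing A]

omit [Algebra K F] [IsScalarTower K A F] [IsDomain A] [IsNoetherianRing A] in
lemma num_sq' {n : ℕ} {u : Fin n → F} {d d' : A} {U : Fin n → A}
    (hU : ∀ i, algebraMap A F (U i) = algebraMap A F d * u i)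
    (hd' : algebraMap A F d' = algebraMap A F d * ∑ i, u i ^ 2) : ∑ i, U i ^ 2 = d * d' := by
  apply IsFractionRing.injective A F
  simp only [map_sum, map_pow, map_mul, hU, mul_pow, hd']
  rw [← Finset.mul_sum]
  ring

lemma step (hK : RealF K) (hP : Pts K A) {n : ℕ} (hn : 0 < n)
    (hdep : ∀ u : Fin n → F, ¬ AlgebraicIndependent K u) {e : Fin n → F} {f : A}
    (hf : ∑ i, e i ^ 2 = algebraMap A F f) (Z : Finset (A →ₐ[K] K))
    (hZ : ∀ φ ∈ Z, ∃ s t, Reg2 φ s t) (κ : (A →ₐ[K] K) → ℕ)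
    (hgood : ∀ φ ∉ Z, ¬ den A e ≤ pt φ) (hκ : ∀ φ ∈ Z, ¬ den A e ≤ pt φ ^ (κ φ + 1))
    {z : A →ₐ[K] K} (hz : z ∈ Z) (hk : 1 ≤ κ z) (hDz : den A e ≤ pt z ^ κ z) :
    ∃ e' : Fin n → F, ∑ i, e' i ^ 2 = algebraMap A F f ∧ (∀ φ ∉ Z, ¬ den A e' ≤ pt φ) ∧
      (∀ φ ∈ Z, φ ≠ z → ¬ den A e' ≤ pt φ ^ (κ φ + 1)) ∧ ¬ den A e' ≤ pt z ^ κ z := by
  classical
  have := hK.infinite
  obtain ⟨k, hkdef⟩ : ∃ k, κ z = k + 1 := ⟨κ z - 1, by omega⟩
  rw [hkdef] at hDz
  obtain ⟨s, t, hst⟩ := hZ z hz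
  obtain ⟨g, hgD, hg'⟩ := SetLike.not_le_iff_exists.mp (hκ z hz)
  rw [hkdef] at hg'
  have hg : g ∈ pt z ^ (k + 1) := hDz hgD
  have hg0 : g ≠ 0 := fun h => hg' (h ▸ zero_mem _)
  have hgF : algebraMap A F g ≠ 0 := by simpa using hg0
  choose v hv using hgD
  have hgD : g ∈ den A e := fun i => ⟨v i, hv i⟩
  have hvk : ∀ i, v i ∈ pt z ^ (k + 1) := by
    refine hst.sq hK ?_
    rw [num_sq hf hv]
    refine Ideal.mul_mem_right _ _ (Ideal.pow_le_pow_right (n := 2 * (k + 1)) (by omega) ?_)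
    rw [mul_comm, pow_mul]
    exact Ideal.pow_mem_pow hg 2
  obtain ⟨j, ⟨x₀, hx₀⟩, hmax⟩ := exists_level z (g := g) hvk (by
    intro a ha hdvd
    apply ha
    refine Ideal.pow_le_self (Nat.succ_ne_zero k) (hDz fun i => ?_)
    obtain ⟨w, hw⟩ := hdvd i
    refine ⟨w, mul_left_cancel₀ hgF ?_⟩
    rw [← map_mul, ← hw, map_mul, hv]
    ring)
  obtain ⟨π, hπ, hπZ⟩ := hst.exists_param hg hg' (Z.erase z) (by simp)
  have hbad : ∀ φ : A →ₐ[K] K, den A e ≤ pt φ → φ π = 0 → φ = z := by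
    intro φ hφ h0
    by_contra hne
    have hφZ : φ ∈ Z := by
      by_contra h
      exact hgood φ h hφ
    exact hπZ φ (Finset.mem_erase.mpr ⟨hne, hφZ⟩) h0
  choose x u hu hxu using fun i => hπ.approx hP (by omega) hg0 hbad (r := e i)
    (fun d hd => hd i) (hv i) (hx₀ i)
  -- the algebraic relation
  obtain ⟨Φ, hΦ, hΦ0⟩ : ∃ Φ : MvPolynomial (Fin n) K, MvPolynomial.aeval u Φ = 0 ∧ Φ ≠ 0 := by
    by_contra hcon
    push Not at hcon
    exact hdep u (algebraicIndependent_iff.mpr hcon)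
  let i₀ : Fin n := ⟨0, hn⟩
  -- the excluded constants
  have hexc : ∀ ψ : A →ₐ[K] K, ∃ c : K, ψ ∈ Z → ∃ d ∈ den A e, ∃ l ≤ κ ψ, d ∈ pt ψ ^ l ∧
      ∀ (U : A) (c' : K), algebraMap A F U = algebraMap A F d * (u i₀ - algebraMap K F c') →
        U ∈ pt ψ ^ (l + 1) → c' = c := by
    intro ψ
    by_cases hψ : ψ ∈ Z
    swap
    · exact ⟨0, fun h => absurd h hψ⟩
    obtain ⟨d, hd, hd'⟩ := SetLike.not_le_iff_exists.mp (hκ ψ hψ)
    obtain ⟨l, hl, hdl, hdl'⟩ := exists_order _ hd'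
    by_cases hex : ∃ (U : A) (c : K),
        algebraMap A F U = algebraMap A F d * (u i₀ - algebraMap K F c) ∧ U ∈ pt ψ ^ (l + 1)
    · obtain ⟨U, c, hU, hU'⟩ := hex
      refine ⟨c, fun _ => ⟨d, hd, l, hl, hdl, fun U' c' hU1 hU2 => ?_⟩⟩
      by_contra hne
      apply hdl'
      refine cancel_unit' ψ (a := algebraMap K A (c' - c)) (by simpa using sub_ne_zero.mpr hne) ?_
      have : algebraMap K A (c' - c) * d = U - U' := by
        apply IsFractionRing.injective A F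
        rw [map_mul, map_sub (algebraMap A F), hU, hU1, ← IsScalarTower.algebraMap_apply, map_sub]
        ring
      rw [this]
      exact Ideal.sub_mem _ hU' hU2
    · exact ⟨0, fun _ => ⟨d, hd, l, hl, hdl, fun U c' h1 h2 => absurd ⟨U, c', h1, h2⟩ hex⟩⟩
  choose cc hcc using hexc
  obtain ⟨η, hη⟩ : ∃ η : Fin n → K, MvPolynomial.eval η
      (Φ * ∏ ψ ∈ Z, (MvPolynomial.X i₀ - MvPolynomial.C (cc ψ))) ≠ 0 := by
    by_contra hcon
    push Not at hcon
    have h0 := MvPolynomial.funext (q := 0) (fun η => (hcon η).trans (by simp))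
    rcases mul_eq_zero.mp h0 with h | h
    · exact hΦ0 h
    · obtain ⟨ψ, -, hψ⟩ := Finset.prod_eq_zero_iff.mp h
      have := congrArg (MvPolynomial.eval fun _ => cc ψ + 1) hψ
      simp at this
  rw [map_mul, map_prod] at hη
  have hη1 : MvPolynomial.eval η Φ ≠ 0 := left_ne_zero_of_mul hη
  have hη2 : ∀ ψ ∈ Z, η i₀ ≠ cc ψ := fun ψ hψ h => by
    have := Finset.prod_ne_zero_iff.mp (right_ne_zero_of_mul hη) ψ hψ
    simp [h] at this
  -- the shifted data
  set b := π ^ (j + 1) with hb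
  let x' : Fin n → A := fun i => x i + b * algebraMap K A (η i)
  let u' : Fin n → F := fun i => u i - algebraMap K F (η i)
  have he' : ∀ i, e i = algebraMap A F (x' i) + algebraMap A F b * u' i := by
    intro i
    rw [hxu i]
    simp only [x', u', map_add, map_mul, ← IsScalarTower.algebraMap_apply]
    ring
  have hDu' : den A e ≤ den A u' := by
    intro d hd i
    have := (hu i d hd).sub (Int.map (d * algebraMap K A (η i)))
    convert this using 1
    simp only [u', map_mul, ← IsScalarTower.algebraMap_apply]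
    ring
  choose U hU using hDu' hgD
  have hUz : ¬ ∀ i, U i ∈ pt z ^ (k + 1) := by
    intro hall
    refine hmax ⟨x', fun i => ?_⟩
    have : v i - g * x' i = U i * b := by
      apply IsFractionRing.injective A F
      rw [map_sub, map_mul, map_mul, hv, hU, he' i]
      ring
    rw [this, pow_add]
    exact Ideal.mul_mem_mul (hall i) (Ideal.pow_mem_pow hπ.mem _)
  have hq : ∑ i, u' i ^ 2 ≠ 0 := by
    intro h0
    apply hUz
    refine hst.sq hK ?_
    rw [num_sq' (d' := 0) hU (by simp [h0])]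
    simp
  obtain ⟨e', he'f, hden⟩ := reflect he' hf hDu' (fun r h1 h2 =>
    hπ.glob hP hgD hbad (N := (j + 1) * 2) (by rwa [pow_mul, map_pow]) h2) hq
  refine ⟨e', he'f, fun φ hφ hle => ?_, fun φ hφ _ hle => ?_, fun hle => ?_⟩
  · obtain ⟨d, hd, hd0⟩ := SetLike.not_le_iff_exists.mp (hgood φ hφ)
    obtain ⟨d', hd', hdd'⟩ := hden d hd
    choose W hW using hDu' hd
    have h1 : ∀ i, W i ∈ pt φ := by
      refine pt_real hK φ W ?_
      rw [num_sq' hW hdd']
      exact Ideal.mul_mem_left _ _ (hle hd')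
    obtain ⟨N, c, hc1, hc2⟩ := eval_rel u d (fun i => W i + d * algebraMap K A (η i))
      (fun i => by
        simp only [map_add, map_mul, hW, u', ← IsScalarTower.algebraMap_apply]
        ring) φ η
      (fun i => by
        have := (mem_pt φ _).mp (h1 i)
        simp [this]) Φ
    rw [hΦ, mul_zero, map_eq_zero_iff _ (IsFractionRing.injective A F)] at hc1
    rw [hc1, map_zero] at hc2
    exact mul_ne_zero (pow_ne_zero N hd0) hη1 hc2.symm
  · obtain ⟨d, hd, l, hl, hdl, hex⟩ := hcc φ hφ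
    obtain ⟨d', hd', hdd'⟩ := hden d hd
    choose W hW using hDu' hd
    obtain ⟨s', t', hst'⟩ := hZ φ hφ
    refine hη2 φ hφ (hex (W i₀) _ (hW i₀) (hst'.sq hK ?_ i₀))
    rw [num_sq' hW hdd', show 2 * l + 1 = l + (l + 1) by ring, pow_add]
    exact Ideal.mul_mem_mul hdl (Ideal.pow_le_pow_right (by omega) (hle hd'))
  · obtain ⟨d', hd', hdd'⟩ := hden g hgD
    apply hUz
    refine hst.sq hK ?_
    rw [num_sq' hU hdd']
    rw [hkdef] at hle
    have := Ideal.mul_mem_mul hg (hle hd')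
    rw [← pow_add] at this
    exact Ideal.pow_le_pow_right (by omega) this

lemma descent (hK : RealF K) (hP : Pts K A) {n : ℕ} (hn : 0 < n)
    (hdep : ∀ u : Fin n → F, ¬ AlgebraicIndependent K u) {f : A} (Z : Finset (A →ₐ[K] K))
    (hZ : ∀ φ ∈ Z, ∃ s t, Reg2 φ s t) (N : ℕ) :
    ∀ (e : Fin n → F) (κ : (A →ₐ[K] K) → ℕ), ∑ i, e i ^ 2 = algebraMap A F f →
      (∀ φ ∉ Z, ¬ den A e ≤ pt φ) → (∀ φ ∈ Z, ¬ den A e ≤ pt φ ^ (κ φ + 1)) →
      ∑ φ ∈ Z, κ φ = N → ∃ a : Fin n → A, ∑ i, a i ^ 2 = f := by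
  classical
  induction N with
  | zero =>
    intro e κ hf hgood hκ hsum
    have h1 : (1 : A) ∈ den A e := by
      refine hP.one_mem fun φ => ?_
      have : ¬ den A e ≤ pt φ := by
        by_cases hφ : φ ∈ Z
        · have := hκ φ hφ
          rwa [Finset.sum_eq_zero_iff.mp hsum φ hφ, zero_add, pow_one] at this
        · exact hgood φ hφ
      exact SetLike.not_le_iff_exists.mp this
    choose a ha using h1
    exact ⟨a, by simpa using num_sq hf ha⟩
  | succ N ih =>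
    intro e κ hf hgood hκ hsum
    obtain ⟨z, hz, hk⟩ : ∃ z ∈ Z, 1 ≤ κ z := by
      by_contra hcon
      push Not at hcon
      rw [Finset.sum_eq_zero fun φ hφ => by have := hcon φ hφ; omega] at hsum
      omega
    have hsum' : ∑ φ ∈ Z, Function.update κ z (κ z - 1) φ = N := by
      rw [Finset.sum_update_of_mem hz]
      rw [← Finset.add_sum_erase Z κ hz, Finset.erase_eq] at hsum
      omega
    have fin : ∀ e' : Fin n → F, ∑ i, e' i ^ 2 = algebraMap A F f →
        (∀ φ ∉ Z, ¬ den A e' ≤ pt φ) → (∀ φ ∈ Z, φ ≠ z → ¬ den A e' ≤ pt φ ^ (κ φ + 1)) →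
        ¬ den A e' ≤ pt z ^ κ z → ∃ a : Fin n → A, ∑ i, a i ^ 2 = f := by
      intro e' h1 h2 h3 h4
      refine ih e' _ h1 h2 (fun φ hφ => ?_) hsum'
      by_cases h : φ = z
      · subst h
        rwa [Function.update_self, Nat.sub_add_cancel hk]
      · rw [Function.update_of_ne h]
        exact h3 φ hφ h
    by_cases hDz : den A e ≤ pt z ^ κ z
    · obtain ⟨e', h1, h2, h3, h4⟩ := step hK hP hn hdep hf Z hZ κ hgood hκ hz hk hDz
      exact fin e' h1 h2 h3 h4
    · exact fin e hf hgood (fun φ hφ _ => hκ φ hφ) hDz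

/-- Abstract main theorem: a sum of `n ≥ 3` squares of fractions that lies in `A` is a sum of
`n` squares in `A`. -/
theorem sum_sq_descends (hK : RealF K) (hP : Pts K A)
    (hreg : ∀ φ : A →ₐ[K] K, IsRegularLocalRing (Localization.AtPrime (pt φ)))
    (hdep : ∀ u : Fin 3 → F, ¬ AlgebraicIndependent K u) {n : ℕ} (hn : 3 ≤ n)
    {e : Fin n → F} {f : A} (hf : ∑ i, e i ^ 2 = algebraMap A F f) :
    ∃ a : Fin n → A, ∑ i, a i ^ 2 = f := by
  classical
  have hdepA : ∀ u : Fin 3 → A, ¬ AlgebraicIndependent K u := fun u hu =>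
    hdep _ (hu.map' (f := IsScalarTower.toAlgHom K A F) (IsFractionRing.injective A F))
  have hdepn : ∀ u : Fin n → F, ¬ AlgebraicIndependent K u := fun u hu =>
    hdep _ (hu.comp (Fin.castLE hn) (Fin.castLE_injective hn))
  have hfin := finite_bad hK hdepA hreg hf
  have hκ : ∀ φ : A →ₐ[K] K, ∃ k, ¬ den A e ≤ pt φ ^ (k + 1) := by
    intro φ
    by_contra hcon
    push Not at hcon
    apply den_ne_bot (A := A) e
    rw [eq_bot_iff, ← Ideal.iInf_pow_eq_bot_of_isDomain (pt φ) (pt_ne_top φ)]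
    exact le_iInf fun k => (hcon k).trans (Ideal.pow_le_pow_right (by omega))
  choose κ hκ using hκ
  refine descent hK hP (by omega) hdepn hfin.toFinset (fun φ hφ => ?_) _ e κ hf
    (fun φ hφ => by simpa using hφ) (fun φ _ => hκ φ) rfl
  exact reg2_of_bad hK hdepA hf φ (hreg φ) (by simpa using hφ)

end Pool.Agent.MP_d2168f_ag
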