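import Pool.Agent.MP_d2168f_ag.Local2

/-!
Facts on the rational function field in two variables over a formally real field.
-/

namespace Pool.Agent.MP_d2168f_ag

open Polynomial

variable {K : Type*} [Field K]

lemma poly_sq_add_sq (hK : RealF K) {p q : K[X]} (h : p ^ 2 + q ^ 2 = 0) : p = 0 ∧ q = 0 := by
  have := hK.infinite
  have key : ∀ c, p.eval c = 0 ∧ q.eval c = 0 := by
    intro c
    have h1 := hK 2 ![p.eval c, q.eval c] (by
      have := congrArg (eval c) h
      simpa [Fin.sum_univ_two] using this)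
    exact ⟨h1 0, h1 1⟩
  exact ⟨Polynomial.funext fun c => by simpa using (key c).1,
    Polynomial.funext fun c => by simpa using (key c).2⟩

lemma not_sq (hK : RealF K) {N W : K[X]} (h : (1 + X ^ 2) * N ^ 2 = W ^ 2) : N = 0 := by
  have := hK.charZero
  by_contra hN
  obtain ⟨w, rfl⟩ : N ∣ W :=
    (IsIntegrallyClosed.pow_dvd_pow_iff two_ne_zero).mp ⟨1 + X ^ 2, by rw [← h]; ring⟩
  have h1 : (w - X) * (w + X) = 1 := by
    apply mul_left_cancel₀ (pow_ne_zero 2 hN)
    linear_combination -h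
  obtain ⟨a, -, ha⟩ := Polynomial.isUnit_iff.mp (IsUnit.of_mul_eq_one _ h1)
  obtain ⟨b, -, hb⟩ := Polynomial.isUnit_iff.mp (IsUnit.of_mul_eq_one_right _ h1)
  have h2 : (C 2 * X : K[X]) = C (b - a) := by
    rw [map_sub, ha, hb, map_ofNat]
    ring
  have := congrArg (fun p => coeff p 1) h2
  simp [coeff_C] at this

/-- the quadric `Y ^ 2 + 1 + X ^ 2` -/
noncomputable def quad (K : Type*) [Field K] : K[X][X] := X ^ 2 + C (1 + X ^ 2)

lemma quad_monic : (quad K).Monic := monic_X_pow_add_C _ two_ne_zero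

lemma quad_natDegree : (quad K).natDegree = 2 := natDegree_X_pow_add_C

lemma exists_red (p : K[X][X]) : ∃ a b : K[X], quad K ∣ p - (C b * X + C a) := by
  have h1 : (p %ₘ quad K).natDegree ≤ 1 := by
    have := natDegree_modByMonic_lt p (quad_monic (K := K)) (by
      intro h
      have := quad_natDegree (K := K)
      rw [h] at this
      simp at this)
    rw [quad_natDegree] at this
    omega
  refine ⟨(p %ₘ quad K).coeff 0, (p %ₘ quad K).coeff 1, p /ₘ quad K, ?_⟩
  rw [← eq_X_add_C_of_natDegree_le_one h1]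
  linear_combination -modByMonic_add_div p (quad K)

lemma quad_dvd (hK : RealF K) {p q : K[X][X]} (h : quad K ∣ p ^ 2 + q ^ 2) :
    quad K ∣ p ∧ quad K ∣ q := by
  have := hK.charZero
  obtain ⟨p0, p1, p', hp⟩ := exists_red p
  obtain ⟨q0, q1, q', hq⟩ := exists_red q
  set α : K[X] := p0 ^ 2 + q0 ^ 2 - (1 + X ^ 2) * (p1 ^ 2 + q1 ^ 2) with hα
  set β : K[X] := 2 * (p0 * p1 + q0 * q1) with hβ
  have h1 : quad K ∣ C β * X + C α := by
    have e : C β * X + C α = (p ^ 2 + q ^ 2) - quad K * (p' * (p + (C p1 * X + C p0))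
        + q' * (q + (C q1 * X + C q0)) + C (p1 ^ 2 + q1 ^ 2)) := by
      rw [hα, hβ]
      simp only [map_add, map_mul, map_pow, map_sub, map_ofNat, map_one]
      have hq0 : quad K = X ^ 2 + (1 + C X ^ 2) := by simp [quad]
      linear_combination (-(p + (C p1 * X + C p0))) * hp - (q + (C q1 * X + C q0)) * hq
        + (C p1 ^ 2 + C q1 ^ 2) * hq0
    rw [e]
    exact dvd_sub h (dvd_mul_right _ _)
  have h2 : C β * X + C α = 0 := by
    refine eq_zero_of_dvd_of_natDegree_lt h1 ?_
    rw [quad_natDegree]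
    exact lt_of_le_of_lt natDegree_linear_le (by norm_num)
  have hα0 : α = 0 := by simpa using congrArg (fun p => coeff p 0) h2
  have hβ0 : β = 0 := by simpa [coeff_C] using congrArg (fun p => coeff p 1) h2
  have hβ1 : p0 * p1 + q0 * q1 = 0 := by
    rw [hβ] at hβ0
    exact (mul_eq_zero.mp hβ0).resolve_left two_ne_zero
  have hN : p1 ^ 2 + q1 ^ 2 = 0 := by
    refine not_sq hK (W := p0 * q1 - q0 * p1) ?_
    rw [hα] at hα0
    linear_combination (-(p1 ^ 2 + q1 ^ 2)) * hα0 + (p0 * p1 + q0 * q1) * hβ1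
  obtain ⟨rfl, rfl⟩ := poly_sq_add_sq hK hN
  obtain ⟨rfl, rfl⟩ := poly_sq_add_sq hK (p := p0) (q := q0) (by simpa [hα] using hα0)
  exact ⟨⟨p', by simpa using hp⟩, ⟨q', by simpa using hq⟩⟩

lemma quad_not_two (hK : RealF K) (n : ℕ) : ∀ p q r : K[X][X], r.natDegree = n →
    p ^ 2 + q ^ 2 = quad K * r ^ 2 → r = 0 := by
  induction n using Nat.strong_induction_on with
  | _ n ih =>
    intro p q r hr h
    have hq0 : quad K ≠ 0 := quad_monic.ne_zero
    obtain ⟨⟨p', rfl⟩, ⟨q', rfl⟩⟩ := quad_dvd hK (p := p) (q := q) ⟨_, h⟩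
    have h1 : r ^ 2 + 0 ^ 2 = quad K * (p' ^ 2 + q' ^ 2) := by
      apply mul_left_cancel₀ hq0
      linear_combination -h
    obtain ⟨⟨r', rfl⟩, -⟩ := quad_dvd hK (p := r) (q := 0) ⟨_, h1⟩
    by_cases hr' : r' = 0
    · simp [hr']
    have h2 : p' ^ 2 + q' ^ 2 = quad K * r' ^ 2 := by
      apply mul_left_cancel₀ hq0
      linear_combination -h1
    rw [natDegree_mul hq0 hr', quad_natDegree] at hr
    exact absurd (ih r'.natDegree (by omega) p' q' r' rfl h2) hr'

/-- `1 + x² + y²` is not a sum of two squares of rational functions -/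
lemma not_two_sq (hK : RealF K) (a b : FractionRing (MvPolynomial (Fin 2) K)) :
    a ^ 2 + b ^ 2 ≠ 1 ^ 2 + algebraMap (MvPolynomial (Fin 2) K) _ (MvPolynomial.X 0) ^ 2
      + algebraMap (MvPolynomial (Fin 2) K) _ (MvPolynomial.X 1) ^ 2 := by
  intro h
  obtain ⟨r, hr⟩ := IsLocalization.exist_integer_multiples_of_finite
    (nonZeroDivisors (MvPolynomial (Fin 2) K)) ![a, b]
  obtain ⟨p, hp⟩ := hr 0
  obtain ⟨q, hq⟩ := hr 1
  simp only [Algebra.smul_def, Matrix.cons_val_zero, Matrix.cons_val_one] at hp hq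
  have h1 : p ^ 2 + q ^ 2 = (1 + MvPolynomial.X 0 ^ 2 + MvPolynomial.X 1 ^ 2)
      * (r : MvPolynomial (Fin 2) K) ^ 2 := by
    apply IsFractionRing.injective _ (FractionRing (MvPolynomial (Fin 2) K))
    simp only [map_add, map_mul, map_pow, map_one, hp, hq]
    linear_combination (algebraMap (MvPolynomial (Fin 2) K)
      (FractionRing (MvPolynomial (Fin 2) K)) r) ^ 2 * h
  let θ := (Polynomial.Bivariate.equivMvPolynomial K).symm
  have h2 := congrArg θ h1
  simp only [map_add, map_mul, map_pow, map_one, θ, Bivariate.equivMvPolynomial_symm_X_0,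
    Bivariate.equivMvPolynomial_symm_X_1] at h2
  have h3 := quad_not_two hK _ (θ p) (θ q) (θ r) rfl (by
    rw [h2]
    simp only [quad, map_add, map_one, map_pow, θ]
    ring)
  exact nonZeroDivisors.coe_ne_zero r (θ.injective (h3.trans (map_zero θ).symm))

lemma not_indep (u : Fin 3 → FractionRing (MvPolynomial (Fin 2) K)) :
    ¬ AlgebraicIndependent K u := by
  intro hu
  have h1 := hu.lift_cardinalMk_le_trdeg
  have : Algebra.IsAlgebraic (MvPolynomial (Fin 2) K) (FractionRing (MvPolynomial (Fin 2) K)) :=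
    IsLocalization.isAlgebraic _ (nonZeroDivisors (MvPolynomial (Fin 2) K))
  rw [← trdeg_add_eq K (MvPolynomial (Fin 2) K), trdeg_eq_zero (R := MvPolynomial (Fin 2) K),
    add_zero,
    MvPolynomial.trdeg_of_isDomain] at h1
  simp at h1
  norm_cast at h1

/-- a finitely generated subalgebra of a rational function field has a rational point -/
lemma exists_point [Infinite K] {B σ : Type*} [CommRing B] [Algebra K B] [Algebra.FiniteType K B]
    (j : B →ₐ[K] FractionRing (MvPolynomial σ K)) : Nonempty (B →ₐ[K] K) := by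
  obtain ⟨S, hS⟩ := (Algebra.FiniteType.out : (⊤ : Subalgebra K B).FG)
  obtain ⟨r, hr⟩ := IsLocalization.exist_integer_multiples_of_finite
    (nonZeroDivisors (MvPolynomial σ K)) (fun s : S => j s)
  obtain ⟨a, ha⟩ : ∃ a : σ → K, MvPolynomial.eval a (r : MvPolynomial σ K) ≠ 0 := by
    by_contra hcon
    push Not at hcon
    exact nonZeroDivisors.coe_ne_zero r (MvPolynomial.funext fun a => by simpa using hcon a)
  let M : Submonoid (MvPolynomial σ K) := Submonoid.powers (r : MvPolynomial σ K)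
  have hM : M ≤ nonZeroDivisors (MvPolynomial σ K) := Submonoid.powers_le.mpr r.2
  let T := Localization.subalgebra.ofField (FractionRing (MvPolynomial σ K)) M hM
  have hT : ∀ b, j b ∈ T.restrictScalars K := by
    have : (⊤ : Subalgebra K B) ≤ (T.restrictScalars K).comap j := by
      rw [← hS, Algebra.adjoin_le_iff]
      intro s hs
      obtain ⟨p, hp⟩ := hr ⟨s, hs⟩
      refine ⟨p, r, Submonoid.mem_powers _, ?_⟩
      have h0 : algebraMap (MvPolynomial σ K) (FractionRing (MvPolynomial σ K)) r ≠ 0 := by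
        simp
      rw [hp, Algebra.smul_def]
      field_simp
      rfl
    exact fun b => this (Algebra.mem_top)
  let ev : T →ₐ[K] K := IsLocalization.liftAlgHom (M := M) (f := MvPolynomial.aeval a) (by
    rintro ⟨_, n, rfl⟩
    simpa using fun h => absurd h ha)
  exact ⟨ev.comp (j.codRestrict (T.restrictScalars K) hT)⟩

end Pool.Agent.MP_d2168f_ag
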