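import Pool.Agent.MP_d2168f_ag.Defs
import Pool.Agent.MP_d2168f_ag.Main
import Pool.Agent.MP_d2168f_ag.Three

/-!
Transfer of the abstract theorem to the ring of regular functions.
-/

namespace Pool.Agent.MP_d2168f_ag

lemma exists_fin_of_isSumSq {A : Type*} [CommRing A] {a : A} (h : IsSumSq a) :
    ∃ (m : ℕ) (v : Fin m → A), a = ∑ i, v i ^ 2 := by
  induction h with
  | zero => exact ⟨0, Fin.elim0, by simp⟩
  | sq_add b _ ih =>
    obtain ⟨m, v, rfl⟩ := ih
    exact ⟨m + 1, Fin.cons b v, by simp [Fin.sum_univ_succ, pow_two]⟩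

lemma isSumSq_map {A F : Type*} [CommRing A] [CommRing F] (f : A →+* F) {a : A}
    (h : IsSumSq a) : IsSumSq (f a) := by
  obtain ⟨m, v, rfl⟩ := exists_fin_of_isSumSq h
  simp only [map_sum, map_pow]
  exact IsSumSq.sum_sq _ _

lemma frac_of_ring {A F : Type*} [CommRing A] [IsDomain A] [Field F] [Algebra A F]
    [IsFractionRing A F] {m : ℕ}
    (h : ∀ a : A, IsSumSq a → ∃ v : Fin m → A, a = ∑ i, v i ^ 2) (a : F) (ha : IsSumSq a) :
    ∃ v : Fin m → F, a = ∑ i, v i ^ 2 := by
  obtain ⟨n, e, rfl⟩ := exists_fin_of_isSumSq ha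
  obtain ⟨d, hd, hd0⟩ := (Submodule.ne_bot_iff _).mp (den_ne_bot (A := A) e)
  choose v hv using hd
  obtain ⟨w, hw⟩ := h (∑ i, v i ^ 2) (IsSumSq.sum_sq _ _)
  have hd' : algebraMap A F d ≠ 0 := by simpa using hd0
  refine ⟨fun i => algebraMap A F (w i) / algebraMap A F d, ?_⟩
  have := congrArg (algebraMap A F) hw
  simp only [map_sum, map_pow, hv, mul_pow] at this
  simp only [div_pow]
  rw [← Finset.sum_div, ← this, ← Finset.mul_sum]
  field_simp

variable {K B : Type*} [Field K] [CommRing B] [Algebra K B]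

lemma three_le (hK : RealF K) {F : Type*} [Field F] [Algebra K F]
    (ε : F ≃ₐ[K] FractionRing (MvPolynomial (Fin 2) K)) {m : ℕ} (hm : 1 ≤ m)
    (h : ∀ a : F, IsSumSq a → ∃ v : Fin m → F, a = ∑ i, v i ^ 2) : 3 ≤ m := by
  by_contra hlt
  obtain ⟨v, hv⟩ := h (∑ i, (![1, ε.symm (algebraMap (MvPolynomial (Fin 2) K) _ (MvPolynomial.X 0)),
    ε.symm (algebraMap (MvPolynomial (Fin 2) K) _ (MvPolynomial.X 1))] : Fin 3 → F) i ^ 2)
    (IsSumSq.sum_sq _ _)
  have h1 := congrArg ε hv
  simp only [Fin.sum_univ_three, map_add, map_pow, Matrix.cons_val_zero, Matrix.cons_val_one,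
    Matrix.cons_val_two, map_one, AlgEquiv.apply_symm_apply, map_sum, Matrix.head_cons,
    Matrix.tail_cons] at h1
  obtain rfl | rfl : m = 1 ∨ m = 2 := by omega
  · exact not_two_sq hK (ε (v 0)) 0 (by rw [h1]; simp)
  · exact not_two_sq hK (ε (v 0)) (ε (v 1)) (by rw [h1]; simp)

lemma pts_localization (hK : RealF K) [IsNoetherianRing B] :
    Pts K (Localization (nonvanishing K B)) := by
  classical
  intro I hI
  set A := Localization (nonvanishing K B)
  obtain ⟨n, g, hg⟩ := Submodule.fg_iff_exists_fin_generating_family.mp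
    (IsNoetherian.noetherian (I.comap (algebraMap B A)))
  have hgI : ∀ i, g i ∈ I.comap (algebraMap B A) := fun i =>
    hg ▸ Submodule.subset_span ⟨i, rfl⟩
  have h1 : ∑ i, g i ^ 2 ∉ nonvanishing K B := by
    intro hmem
    refine hI (I.eq_top_of_isUnit_mem (x := algebraMap B A (∑ i, g i ^ 2)) ?_
      (IsLocalization.map_units A ⟨_, hmem⟩))
    exact Ideal.sum_mem (I.comap (algebraMap B A)) fun i _ =>
      Ideal.pow_mem_of_mem _ (hgI i) 2 two_pos
  obtain ⟨x, hx⟩ : ∃ x : B →ₐ[K] K, x (∑ i, g i ^ 2) = 0 := by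
    by_contra hcon
    push Not at hcon
    exact h1 hcon
  have h2 : I.comap (algebraMap B A) ≤ pt x := by
    rw [← hg, Submodule.span_le]
    rintro _ ⟨i, rfl⟩
    exact pt_real hK x g hx i
  let φ : A →ₐ[K] K := IsLocalization.liftAlgHom (M := nonvanishing K B) (f := x)
    (fun y => (y.2 x).isUnit)
  refine ⟨φ, fun a ha => ?_⟩
  obtain ⟨⟨b, s⟩, rfl⟩ := IsLocalization.mk'_surjective (nonvanishing K B) a
  have h3 : b ∈ I.comap (algebraMap B A) := IsLocalization.mk'_mem_iff.mp ha
  have h4 : φ (algebraMap B A b) = 0 := by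
    have : φ (algebraMap B A b) = x b := by simp [φ]
    rw [this]
    exact h2 h3
  simp only
  rw [mem_pt, IsLocalization.mk'_eq_mul_mk'_one, map_mul, h4, zero_mul]

theorem pythagoras_eq (hK : ¬ IsSumSq (-1 : K)) [IsDomain B] [Algebra.FiniteType K B]
    (hreg : ∀ (p : Ideal B) [p.IsPrime], (∃ x : B →ₐ[K] K, p = RingHom.ker x) →
      IsRegularLocalRing (Localization.AtPrime p))
    (hrat : Nonempty (FractionRing B ≃ₐ[K] FractionRing (MvPolynomial (Fin 2) K))) :
    pythagorasNumber (Localization (nonvanishing K B)) = pythagorasNumber (FractionRing B) := by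
  have hR := realF_of_not_isSumSq hK
  have := hR.infinite
  obtain ⟨ε⟩ := hrat
  have : IsNoetherianRing B := Algebra.FiniteType.isNoetherianRing K B
  obtain ⟨x₀⟩ := exists_point (ε.toAlgHom.comp
    (IsScalarTower.toAlgHom K B (FractionRing B)))
  have hS : nonvanishing K B ≤ nonZeroDivisors B := fun g hg =>
    mem_nonZeroDivisors_of_ne_zero fun h => hg x₀ (by simp [h])
  set A := Localization (nonvanishing K B)
  set F := FractionRing B
  have : IsDomain A := IsLocalization.isDomain_localization hS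
  have : IsNoetherianRing A := IsLocalization.isNoetherianRing (nonvanishing K B) A inferInstance
  let _ : Algebra A F :=
    IsLocalization.localizationAlgebraOfSubmonoidLe A F (nonvanishing K B) (nonZeroDivisors B) hS
  have : IsScalarTower B A F :=
    IsLocalization.localization_isScalarTower_of_submonoid_le A F _ _ hS
  have : IsScalarTower K A F := IsScalarTower.of_algebraMap_eq fun c => by
    rw [IsScalarTower.algebraMap_apply K B A, ← IsScalarTower.algebraMap_apply B A F,
      ← IsScalarTower.algebraMap_apply K B F]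
  have : IsFractionRing A F :=
    IsFractionRing.isFractionRing_of_isDomain_of_isLocalization (nonvanishing K B) A F
  have hregA : ∀ φ : A →ₐ[K] K, IsRegularLocalRing (Localization.AtPrime (pt φ)) := by
    intro φ
    have := hreg ((pt φ).comap (algebraMap B A)) ⟨φ.comp (IsScalarTower.toAlgHom K B A), rfl⟩
    exact IsRegularLocalRing.of_ringEquiv
      (IsLocalization.localizationLocalizationAtPrimeIsoLocalization
        (nonvanishing K B) (pt φ)).toRingEquiv
  have hdep : ∀ u : Fin 3 → F, ¬ AlgebraicIndependent K u := fun u hu =>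
    not_indep _ (hu.map' (f := ε.toAlgHom) ε.injective)
  unfold pythagorasNumber
  congr 1
  ext n
  refine exists_congr fun m => and_congr_right fun _ => and_congr_right fun hm => ⟨fun h => ?_, ?_⟩
  · exact frac_of_ring h
  · intro h f hf
    obtain ⟨e, he⟩ := h _ (isSumSq_map (algebraMap A F) hf)
    obtain ⟨a, ha⟩ := sum_sq_descends hR (pts_localization hR) hregA hdep (three_le hR ε hm h)
      he.symm
    exact ⟨a, ha.symm⟩

end Pool.Agent.MP_d2168f_ag
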