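import Pool.Agent.MP_d2168f_ag.Dim

/-!
The set of rational points where a representation as a sum of squares has a pole is finite.
-/

namespace Pool.Agent.MP_d2168f_ag

variable {K A F : Type*} [Field K] [CommRing A] [Algebra K A] [Field F] [Algebra A F]

/-- `r` comes from `A` -/
def Int (A : Type*) [CommRing A] [Algebra A F] (r : F) : Prop := ∃ a : A, algebraMap A F a = r

lemma Int.map (a : A) : Int A (algebraMap A F a) := ⟨a, rfl⟩

lemma Int.add {r s : F} (hr : Int A r) (hs : Int A s) : Int A (r + s) := by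
  obtain ⟨a, rfl⟩ := hr
  obtain ⟨b, rfl⟩ := hs
  exact ⟨a + b, by simp⟩

lemma Int.mul {r s : F} (hr : Int A r) (hs : Int A s) : Int A (r * s) := by
  obtain ⟨a, rfl⟩ := hr
  obtain ⟨b, rfl⟩ := hs
  exact ⟨a * b, by simp⟩

lemma Int.neg {r : F} (hr : Int A r) : Int A (-r) := by
  obtain ⟨a, rfl⟩ := hr
  exact ⟨-a, by simp⟩

lemma Int.sub {r s : F} (hr : Int A r) (hs : Int A s) : Int A (r - s) := by
  rw [sub_eq_add_neg]; exact hr.add hs.neg

lemma Int.sum {ι : Type*} (S : Finset ι) {r : ι → F} (hr : ∀ i ∈ S, Int A (r i)) :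
    Int A (∑ i ∈ S, r i) := by
  classical
  induction S using Finset.induction_on with
  | empty => exact ⟨0, by simp⟩
  | insert i S hi ih =>
    rw [Finset.sum_insert hi]
    exact (hr i (by simp)).add (ih fun j hj => hr j (by simp [hj]))

/-- the ideal of common denominators of a family -/
def den (A : Type*) [CommRing A] [Algebra A F] {ι : Type*} (e : ι → F) : Ideal A where
  carrier := {d | ∀ i, Int A (algebraMap A F d * e i)}
  add_mem' := fun {a b} ha hb i => by
    rw [map_add, add_mul]; exact (ha i).add (hb i)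
  zero_mem' := fun i => ⟨0, by simp⟩
  smul_mem' := fun c d hd i => by
    rw [smul_eq_mul, map_mul, mul_assoc]; exact (Int.map c).mul (hd i)

lemma mem_den {ι : Type*} {e : ι → F} {d : A} :
    d ∈ den A e ↔ ∀ i, Int A (algebraMap A F d * e i) := Iff.rfl

variable [IsDomain A] [IsFractionRing A F]

lemma den_ne_bot {ι : Type*} [Finite ι] (e : ι → F) : den A e ≠ ⊥ := by
  obtain ⟨b, hb⟩ := IsLocalization.exist_integer_multiples_of_finite (nonZeroDivisors A) e
  intro h
  have : (b : A) ∈ den A e := fun i => by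
    obtain ⟨a, ha⟩ := hb i
    exact ⟨a, by rw [ha, Algebra.smul_def]⟩
  rw [h, Ideal.mem_bot] at this
  exact nonZeroDivisors.coe_ne_zero b this

omit [IsDomain A] in
lemma num_sq {n : ℕ} {e : Fin n → F} {f d : A} (hf : ∑ i, e i ^ 2 = algebraMap A F f)
    {v : Fin n → A} (hv : ∀ i, algebraMap A F (v i) = algebraMap A F d * e i) :
    ∑ i, v i ^ 2 = d ^ 2 * f := by
  apply IsFractionRing.injective A F
  simp only [map_sum, map_pow, map_mul, hv, mul_pow]
  rw [← Finset.mul_sum, hf]

variable [IsNoetherianRing A]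

/-- the denominator ideal is not contained in a locally principal real ideal -/
lemma not_den_le {n : ℕ} {e : Fin n → F} {f : A} (hf : ∑ i, e i ^ 2 = algebraMap A F f)
    (φ : A →ₐ[K] K) {Q : Ideal A} (hQ : Q ≤ pt φ)
    (hreal : ∀ v : Fin n → A, ∑ i, v i ^ 2 ∈ Q → ∀ i, v i ∈ Q)
    {p : A} (hp : p ∈ Q) (hgen : ∀ q ∈ Q, ∃ a, φ a ≠ 0 ∧ p ∣ a * q) : ¬ den A e ≤ Q := by
  classical
  intro hle
  apply den_ne_bot (A := A) e
  rw [eq_bot_iff, ← Ideal.iInf_pow_eq_bot_of_isDomain (pt φ) (pt_ne_top φ)]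
  refine le_iInf fun N => ?_
  induction N with
  | zero => simp
  | succ N ih =>
    intro d hd
    obtain ⟨a, ha, d', hd'⟩ := hgen d (hle hd)
    by_cases hp0 : p = 0
    · refine cancel_unit' φ ha ?_
      rw [hd', hp0, zero_mul]
      exact zero_mem _
    choose v hv using hd
    have h1 : ∑ i, v i ^ 2 ∈ Q := by
      rw [num_sq hf hv, pow_two, mul_assoc]
      exact Q.mul_mem_right _ (hle fun i => ⟨v i, hv i⟩)
    choose b hb v' hv' using fun i => hgen (v i) (hreal v h1 i)
    have h2 : (∏ i, b i) * d' ∈ den A e := by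
      intro i
      refine ⟨a * (∏ j ∈ Finset.univ.erase i, b j) * v' i, ?_⟩
      have hp' : algebraMap A F p ≠ 0 := by simpa using hp0
      apply mul_left_cancel₀ hp'
      rw [← Finset.mul_prod_erase Finset.univ b (Finset.mem_univ i)]
      have e1 := congrArg (algebraMap A F) hd'
      have e2 := congrArg (algebraMap A F) (hv' i)
      have e3 := hv i
      simp only [map_mul] at e1 e2 ⊢
      set B := algebraMap A F (∏ j ∈ Finset.univ.erase i, b j)
      linear_combination (-algebraMap A F a * B) * e2 + (algebraMap A F (b i) * B * e i) * e1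
        + (algebraMap A F a * B * algebraMap A F (b i)) * e3
    refine cancel_unit' φ (a := (∏ i, b i) * a) ?_ ?_
    · simp only [map_mul, map_prod]
      exact mul_ne_zero (Finset.prod_ne_zero_iff.mpr fun i _ => hb i) ha
    · have : (∏ i, b i) * a * d = p * ((∏ i, b i) * d') := by
        linear_combination (∏ i, b i) * hd'
      rw [this, pow_succ']
      exact Ideal.mul_mem_mul (hQ hp) (ih h2)

omit [IsDomain A] [IsNoetherianRing A] in
lemma pt_real (hK : RealF K) (φ : A →ₐ[K] K) {n : ℕ} (v : Fin n → A)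
    (hv : ∑ i, v i ^ 2 ∈ pt φ) (i : Fin n) : v i ∈ pt φ := by
  rw [mem_pt] at hv ⊢
  refine hK n (fun i => φ (v i)) ?_ i
  simpa using hv

/-- a pole is a two-dimensional regular point -/
lemma reg2_of_bad (hK : RealF K) (hdep : ∀ u : Fin 3 → A, ¬ AlgebraicIndependent K u)
    {n : ℕ} {e : Fin n → F} {f : A} (hf : ∑ i, e i ^ 2 = algebraMap A F f) (φ : A →ₐ[K] K)
    (hreg : IsRegularLocalRing (Localization.AtPrime (pt φ))) (hbad : den A e ≤ pt φ) :
    ∃ s t, Reg2 φ s t := by
  rcases dichotomy hdep φ hreg with ⟨p, hp, hgen⟩ | h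
  · exact absurd hbad (not_den_le hf φ le_rfl (pt_real hK φ) hp hgen)
  · exact h

omit [IsDomain A] in
/-- the points above an ideal all of whose primes below a point equal the point -/
lemma finite_of_minimal (I : Ideal A) (T : Set (A →ₐ[K] K))
    (hT : ∀ φ ∈ T, I ≤ pt φ ∧ ∀ Q : Ideal A, Q.IsPrime → I ≤ Q → Q ≤ pt φ → Q = pt φ) :
    T.Finite := by
  refine Set.Finite.of_finite_image (f := fun φ => pt φ)
    (I.finite_minimalPrimes_of_isNoetherianRing.subset ?_) ?_
  · rintro _ ⟨φ, hφ, rfl⟩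
    refine ⟨⟨pt_isPrime φ, (hT φ hφ).1⟩, ?_⟩
    rintro Q ⟨hQ, hIQ⟩ hle
    exact ((hT φ hφ).2 Q hQ hIQ hle).ge
  · intro φ _ ψ _ h
    exact eq_of_pt_le (le_of_eq h)

lemma finite_bad (hK : RealF K) (hdep : ∀ u : Fin 3 → A, ¬ AlgebraicIndependent K u)
    (hreg : ∀ φ : A →ₐ[K] K, IsRegularLocalRing (Localization.AtPrime (pt φ)))
    {n : ℕ} {e : Fin n → F} {f : A} (hf : ∑ i, e i ^ 2 = algebraMap A F f) :
    {φ : A →ₐ[K] K | den A e ≤ pt φ}.Finite := by
  have := hK.infinite
  have key : ∀ P ∈ (den A e).minimalPrimes, {φ : A →ₐ[K] K | P ≤ pt φ}.Finite := by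
    intro P hP
    have hPp : P.IsPrime := hP.1.1
    have hDP : den A e ≤ P := hP.1.2
    have hP0 : ⊥ < P := lt_of_lt_of_le (bot_lt_iff_ne_bot.mpr (den_ne_bot e)) hDP
    by_contra hinf
    have hinf' : {φ : A →ₐ[K] K | P ≤ pt φ}.Infinite := hinf
    obtain ⟨φ, hφ⟩ := hinf'.nonempty
    have hne : P ≠ pt φ := by
      intro h
      apply hinf
      refine (Set.finite_singleton φ).subset fun ψ hψ => ?_
      exact (eq_of_pt_le (h ▸ hψ)).symm
    obtain ⟨s, t, hst⟩ := reg2_of_bad hK hdep hf φ (hreg φ) (hDP.trans hφ)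
    obtain ⟨p, hp, hgen⟩ := hst.prime_principal hPp hφ hne
    refine not_den_le hf φ hφ (fun v hv i => ?_) hp hgen hDP
    by_contra hi
    apply hinf
    refine finite_of_minimal (P ⊔ Ideal.span {v i}) _ fun ψ hψ => ⟨?_, ?_⟩
    · exact sup_le hψ ((Ideal.span_singleton_le_iff_mem _).mpr (pt_real hK ψ v (hψ hv) i))
    · intro Q hQ hIQ hQψ
      by_contra hQne
      refine no_chain hdep hPp hQ (pt_isPrime ψ) hP0 ?_ (lt_of_le_of_ne hQψ hQne)
      refine lt_of_le_of_ne (le_sup_left.trans hIQ) fun h => hi ?_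
      rw [h]
      exact hIQ (Ideal.mem_sup_right (Ideal.mem_span_singleton_self _))
  refine ((den A e).finite_minimalPrimes_of_isNoetherianRing.biUnion key).subset ?_
  intro φ hφ
  obtain ⟨P, hP, hPφ⟩ := Ideal.exists_minimalPrimes_le (J := pt φ) hφ
  exact Set.mem_biUnion hP hPφ

end Pool.Agent.MP_d2168f_ag
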