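import Mathlib

/-!
Local theory at a rational point of a two-dimensional regular scheme, written inside the
global ring `A` (no localisation): `m = ker φ`.
-/

namespace Pool.Agent.MP_d2168f_ag

open Polynomial

variable {K A : Type*} [Field K] [CommRing A] [Algebra K A]

/-- the maximal ideal of a rational point -/
abbrev pt (φ : A →ₐ[K] K) : Ideal A := RingHom.ker φ

lemma mem_pt (φ : A →ₐ[K] K) (a : A) : a ∈ pt φ ↔ φ a = 0 := RingHom.mem_ker

lemma sub_const_mem (φ : A →ₐ[K] K) (a : A) : a - algebraMap K A (φ a) ∈ pt φ := by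
  rw [mem_pt]; simp

lemma pt_ne_top (φ : A →ₐ[K] K) : pt φ ≠ ⊤ := RingHom.ker_ne_top φ

lemma pt_isPrime (φ : A →ₐ[K] K) : (pt φ).IsPrime := RingHom.ker_isPrime φ

lemma eq_of_pt_le {φ ψ : A →ₐ[K] K} (h : pt φ ≤ pt ψ) : φ = ψ := by
  ext a
  have := h (sub_const_mem φ a)
  rw [mem_pt] at this
  simp only [map_sub, AlgHom.commutes, Algebra.algebraMap_self, RingHom.id_apply] at this
  exact (sub_eq_zero.mp this).symm

/-- elements not vanishing at the point are invertible modulo powers of `m` -/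
lemma exists_inv_mod (φ : A →ₐ[K] K) {a : A} (ha : φ a ≠ 0) (N : ℕ) :
    ∃ u : A, 1 - u * a ∈ pt φ ^ N := by
  have h1 : IsCoprime a (a - algebraMap K A (φ a)) := by
    refine ⟨algebraMap K A (φ a)⁻¹, - algebraMap K A (φ a)⁻¹, ?_⟩
    have : algebraMap K A (φ a)⁻¹ * algebraMap K A (φ a) = 1 := by
      rw [← map_mul, inv_mul_cancel₀ ha, map_one]
    linear_combination this
  obtain ⟨u, v, huv⟩ := h1.pow_right (n := N)
  refine ⟨u, ?_⟩
  have : 1 - u * a = v * (a - algebraMap K A (φ a)) ^ N := by linear_combination -huv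
  rw [this]
  exact Ideal.mul_mem_left _ _ (Ideal.pow_mem_pow (sub_const_mem φ a) N)

lemma cancel_unit (φ : A →ₐ[K] K) {a d : A} (ha : φ a ≠ 0) {I : Ideal A} {N : ℕ}
    (h : a * d ∈ I ⊔ pt φ ^ N) : d ∈ I ⊔ pt φ ^ N := by
  obtain ⟨u, hu⟩ := exists_inv_mod φ ha N
  have : d = u * (a * d) + (1 - u * a) * d := by ring
  rw [this]
  exact Ideal.add_mem _ (Ideal.mul_mem_left _ _ h)
    (Ideal.mem_sup_right (Ideal.mul_mem_right _ _ hu))

lemma cancel_unit' (φ : A →ₐ[K] K) {a d : A} (ha : φ a ≠ 0) {N : ℕ}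
    (h : a * d ∈ pt φ ^ N) : d ∈ pt φ ^ N := by
  have := cancel_unit φ ha (I := ⊥) (N := N) (d := d) (by simpa using h)
  simpa using this

/-- Krull's intersection theorem, in the form needed here -/
lemma krull [IsNoetherianRing A] (φ : A →ₐ[K] K) {d : A} {I : Ideal A}
    (h : ∀ N, d ∈ I ⊔ pt φ ^ N) : ∃ a, φ a ≠ 0 ∧ a * d ∈ I := by
  have : Ideal.Quotient.mk I d ∈ (⨅ i : ℕ, pt φ ^ i • ⊤ : Submodule A (A ⧸ I)) := by
    rw [Submodule.mem_iInf]
    intro N
    obtain ⟨y, hy, z, hz, hyz⟩ := Submodule.mem_sup.mp (h N)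
    have : Ideal.Quotient.mk I d = z • (1 : A ⧸ I) := by
      rw [← hyz, map_add, Ideal.Quotient.eq_zero_iff_mem.mpr hy, zero_add, Algebra.smul_def,
        mul_one]
      rfl
    rw [this]
    exact Submodule.smul_mem_smul hz Submodule.mem_top
  obtain ⟨r, hr⟩ := (Ideal.mem_iInf_smul_pow_eq_bot_iff _ _).mp this
  refine ⟨1 - r, ?_, ?_⟩
  · have := (mem_pt φ _).mp r.2
    simp [this]
  · rw [← Ideal.Quotient.eq_zero_iff_mem, sub_mul, one_mul, map_sub, sub_eq_zero, ← hr,
      Algebra.smul_def]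
    rfl

/-- Nakayama's lemma, in the form needed here -/
lemma nakayama [IsNoetherianRing A] (φ : A →ₐ[K] K) {P N : Ideal A}
    (h : P ≤ N ⊔ pt φ * P) : ∃ r, φ r ≠ 0 ∧ ∀ q ∈ P, r * q ∈ N := by
  obtain ⟨r, hr, hP⟩ := Submodule.exists_sub_one_mem_and_smul_le_of_fg_of_le_sup
    (I := pt φ) (N := N) (N' := P) (P := P) (IsNoetherian.noetherian P) le_rfl h
  refine ⟨r, ?_, fun q hq => hP (Submodule.smul_mem_pointwise_smul q r P hq)⟩
  have := (mem_pt φ _).mp hr
  simp only [map_sub, map_one] at this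
  rw [sub_eq_zero.mp this]
  exact one_ne_zero

/-- exact order -/
lemma exists_order (I : Ideal A) {g : A} {N : ℕ} (hg : g ∉ I ^ (N + 1)) :
    ∃ k ≤ N, g ∈ I ^ k ∧ g ∉ I ^ (k + 1) := by
  induction N with
  | zero => exact ⟨0, le_rfl, by simp, hg⟩
  | succ N ih =>
    by_cases h : g ∈ I ^ (N + 1)
    · exact ⟨N + 1, le_rfl, h, hg⟩
    · obtain ⟨k, hk, h1, h2⟩ := ih h
      exact ⟨k, by omega, h1, h2⟩

section forms

/-- the binary form of degree `k` with dehomogenisation `p`, evaluated at `(s, t)` -/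
noncomputable def form (s t : A) (k : ℕ) (p : K[X]) : A :=
  ∑ i ∈ Finset.range (k + 1), algebraMap K A (p.coeff i) * (s ^ i * t ^ (k - i))

lemma form_add (s t : A) (k : ℕ) (p q : K[X]) :
    form s t k (p + q) = form s t k p + form s t k q := by
  simp [form, Finset.sum_add_distrib, add_mul]

lemma form_zero (s t : A) (k : ℕ) : form s t k (0 : K[X]) = 0 := by simp [form]

lemma form_C_mul (s t : A) (k : ℕ) (c : K) (p : K[X]) :
    form s t k (C c * p) = algebraMap K A c * form s t k p := by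
  simp [form, Finset.mul_sum, mul_assoc]

lemma form_X_mul (s t : A) (k : ℕ) (p : K[X]) :
    form s t (k + 1) (X * p) = s * form s t k p := by
  unfold form
  rw [Finset.sum_range_succ', Finset.mul_sum]
  simp only [coeff_X_mul, mul_coeff_zero, coeff_X_zero, zero_mul, map_zero, add_zero]
  refine Finset.sum_congr rfl fun i _ => ?_
  rw [show k + 1 - (i + 1) = k - i by omega]
  ring

lemma form_succ (s t : A) (k : ℕ) (p : K[X]) (hp : p.natDegree ≤ k) :
    form s t (k + 1) p = t * form s t k p := by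
  unfold form
  rw [Finset.sum_range_succ, coeff_eq_zero_of_natDegree_lt (by omega : p.natDegree < k + 1),
    Finset.mul_sum]
  simp only [map_zero, zero_mul, add_zero]
  refine Finset.sum_congr rfl fun i hi => ?_
  rw [Finset.mem_range] at hi
  rw [show k + 1 - i = (k - i) + 1 by omega]
  ring

lemma form_mem {I : Ideal A} {s t : A} (hs : s ∈ I) (ht : t ∈ I) (k : ℕ) (p : K[X]) :
    form s t k p ∈ I ^ k := by
  unfold form
  refine Ideal.sum_mem _ fun i hi => Ideal.mul_mem_left _ _ ?_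
  rw [Finset.mem_range] at hi
  have := Ideal.mul_mem_mul (Ideal.pow_mem_pow hs i) (Ideal.pow_mem_pow ht (k - i))
  rwa [← pow_add, show i + (k - i) = k by omega] at this

lemma pow_sub_pow_mem {I : Ideal A} {s u : A} (hs : s ∈ I) (hu : u ∈ I) (i : ℕ) :
    s ^ (i + 1) - u ^ (i + 1) ∈ Ideal.span {s - u} * I ^ i := by
  induction i with
  | zero => simp
  | succ i ih =>
    have : s ^ (i + 1 + 1) - u ^ (i + 1 + 1)
        = (s ^ (i + 1) - u ^ (i + 1)) * s + (s - u) * u ^ (i + 1) := by ring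
    rw [this]
    refine Ideal.add_mem _ ?_ ?_
    · rw [pow_succ I, ← mul_assoc]
      exact Ideal.mul_mem_mul ih hs
    · exact Ideal.mul_mem_mul (Ideal.mem_span_singleton_self _) (Ideal.pow_mem_pow hu _)

lemma form_sub_mem {I : Ideal A} {s t : A} (hs : s ∈ I) (ht : t ∈ I) (k : ℕ) (p : K[X])
    (hp : p.natDegree ≤ k) (c : K) :
    form s t k p - algebraMap K A (p.eval c) * t ^ k
      ∈ Ideal.span {s - algebraMap K A c * t} * I ^ (k - 1) := by
  rw [eval_eq_sum_range' (by omega : p.natDegree < k + 1), map_sum, Finset.sum_mul]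
  unfold form
  rw [← Finset.sum_sub_distrib]
  refine Ideal.sum_mem _ fun i hi => ?_
  rw [Finset.mem_range] at hi
  have e : algebraMap K A (p.coeff i) * (s ^ i * t ^ (k - i))
      - algebraMap K A (p.coeff i * c ^ i) * t ^ k
      = algebraMap K A (p.coeff i) * ((s ^ i - (algebraMap K A c * t) ^ i) * t ^ (k - i)) := by
    have : t ^ k = t ^ i * t ^ (k - i) := by rw [← pow_add]; congr 1; omega
    rw [this, map_mul, map_pow]
    ring
  rw [e]
  refine Ideal.mul_mem_left _ _ ?_
  rcases i with _ | i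
  · simp
  · have h1 := pow_sub_pow_mem hs (I.mul_mem_left (algebraMap K A c) ht) i
    have h2 := Ideal.mul_mem_mul h1 (Ideal.pow_mem_pow ht (k - (i + 1)))
    rwa [mul_assoc, ← pow_add, show i + (k - (i + 1)) = k - 1 by omega] at h2

lemma exists_form (φ : A →ₐ[K] K) {s t : A} (hs : s ∈ pt φ) (ht : t ∈ pt φ)
    (hst : pt φ ≤ Ideal.span {s, t} ⊔ pt φ ^ 2) (k : ℕ) :
    ∀ r ∈ pt φ ^ k, ∃ p : K[X], p.natDegree ≤ k ∧ r - form s t k p ∈ pt φ ^ (k + 1) := by
  induction k with
  | zero =>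
    intro r _
    refine ⟨C (φ r), by simp, ?_⟩
    simp [form]
  | succ k ih =>
    intro r hr
    rw [pow_succ] at hr
    refine Submodule.mul_induction_on hr ?_ ?_
    · intro a ha b hb
      obtain ⟨p, hp, hap⟩ := ih a ha
      obtain ⟨y, hy, z, hz, hyz⟩ := Submodule.mem_sup.mp (hst hb)
      obtain ⟨α, β, hαβ⟩ := Ideal.mem_span_pair.mp hy
      refine ⟨C (φ α) * (X * p) + C (φ β) * p, ?_, ?_⟩
      · refine (natDegree_add_le _ _).trans (max_le ?_ ?_)
        · refine (natDegree_C_mul_le _ _).trans (natDegree_mul_le.trans ?_)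
          have := natDegree_X_le (R := K)
          omega
        · exact (natDegree_C_mul_le _ _).trans (by omega)
      · rw [form_add, form_C_mul, form_C_mul, form_X_mul, form_succ _ _ _ _ hp]
        have e : a * b - (algebraMap K A (φ α) * (s * form s t k p)
            + algebraMap K A (φ β) * (t * form s t k p))
            = (a - form s t k p) * b + form s t k p *
              ((α - algebraMap K A (φ α)) * s + (β - algebraMap K A (φ β)) * t + z) := by
          rw [← hyz, ← hαβ]; ring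
        rw [e]
        refine Ideal.add_mem _ ?_ ?_
        · rw [pow_succ]; exact Ideal.mul_mem_mul hap hb
        · rw [show k + 1 + 1 = k + 2 by ring, pow_add]
          refine Ideal.mul_mem_mul (form_mem hs ht k p) ?_
          refine Ideal.add_mem _ (Ideal.add_mem _ ?_ ?_) hz
          · rw [pow_two]; exact Ideal.mul_mem_mul (sub_const_mem φ α) hs
          · rw [pow_two]; exact Ideal.mul_mem_mul (sub_const_mem φ β) ht
    · rintro x y ⟨p, hp, hx⟩ ⟨q, hq, hy⟩
      refine ⟨p + q, (natDegree_add_le _ _).trans (max_le hp hq), ?_⟩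
      rw [form_add]
      have := Ideal.add_mem _ hx hy
      convert this using 1
      ring

/-- values of the initial form along all directions -/
lemma exists_val (φ : A →ₐ[K] K) {s t : A} (hs : s ∈ pt φ) (ht : t ∈ pt φ)
    (hst : pt φ ≤ Ideal.span {s, t} ⊔ pt φ ^ 2) (k : ℕ) {r : A} (hr : r ∈ pt φ ^ k) :
    ∃ p : K[X], (p = 0 → r ∈ pt φ ^ (k + 1)) ∧ ∀ (c : K) (π : A),
      π - (s - algebraMap K A c * t) ∈ pt φ ^ 2 →
      r - algebraMap K A (p.eval c) * t ^ k
        ∈ Ideal.span {π} * pt φ ^ (k - 1) ⊔ pt φ ^ (k + 1) := by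
  obtain ⟨p, hp, hrp⟩ := exists_form φ hs ht hst k r hr
  refine ⟨p, fun h => by simpa [h, form_zero] using hrp, fun c π hπ => ?_⟩
  have h1 := form_sub_mem hs ht k p hp c
  rw [Ideal.mem_span_singleton_mul] at h1
  obtain ⟨z, hz, hz'⟩ := h1
  have e : r - algebraMap K A (p.eval c) * t ^ k
      = π * z + ((r - form s t k p) - (π - (s - algebraMap K A c * t)) * z) := by
    linear_combination -hz'
  rw [e]
  refine Submodule.add_mem_sup
    (Ideal.mul_mem_mul (Ideal.mem_span_singleton_self _) hz) (Ideal.sub_mem _ hrp ?_)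
  have h2 := Ideal.mul_mem_mul hπ hz
  rw [← pow_add] at h2
  rcases k with _ | k
  · exact Ideal.pow_le_pow_right (by omega) h2
  · rwa [show 2 + (k + 1 - 1) = k + 1 + 1 by omega] at h2

end forms

end Pool.Agent.MP_d2168f_ag
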