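import Pool.Agent.MP_d2168f_ag.Local

/-!
Consequences of the theory of initial forms at a two-dimensional regular rational point.
-/

namespace Pool.Agent.MP_d2168f_ag

open Polynomial

variable {K A : Type*} [Field K] [CommRing A] [Algebra K A]

/-- `K` is formally real, in the form used in the proofs -/
def RealF (K : Type*) [Field K] : Prop :=
  ∀ (n : ℕ) (v : Fin n → K), ∑ i, v i ^ 2 = 0 → ∀ i, v i = 0

lemma realF_of_not_isSumSq (hK : ¬ IsSumSq (-1 : K)) : RealF K := by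
  intro n v hv i
  by_contra hi
  apply hK
  have h1 : ∑ j ∈ Finset.univ.erase i, (v j / v i) ^ 2 = -1 := by
    have h2 := Finset.add_sum_erase Finset.univ (fun j => v j ^ 2) (Finset.mem_univ i)
    rw [hv] at h2
    simp only [div_pow]
    rw [← Finset.sum_div, div_eq_iff (pow_ne_zero 2 hi)]
    linear_combination h2
  rw [← h1]
  exact IsSumSq.sum_sq _ _

lemma RealF.charZero (hK : RealF K) : CharZero K := by
  refine ⟨fun a b hab => ?_⟩
  wlog h : a ≤ b generalizing a b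
  · exact (this b a hab.symm (by omega)).symm
  by_contra hne
  obtain ⟨c, rfl⟩ := Nat.exists_eq_add_of_le h
  have hc : (c : K) = 0 := by simpa using hab
  have := hK c (fun _ => 1) (by simpa using hc) ⟨0, by omega⟩
  exact one_ne_zero this

lemma RealF.infinite (hK : RealF K) : Infinite K :=
  haveI := hK.charZero
  Infinite.of_injective _ (Nat.cast_injective (R := K))

/-- the point is regular of dimension two -/
structure Reg2 (φ : A →ₐ[K] K) (s t : A) : Prop where
  hs : s ∈ pt φ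
  ht : t ∈ pt φ
  gen : pt φ ≤ Ideal.span {s, t} ⊔ pt φ ^ 2
  nd : ∀ π ∈ pt φ, ∀ k, ¬ pt φ ^ k ≤ Ideal.span {π} ⊔ pt φ ^ (k + 1)

lemma span_mul_le (π : A) (J : Ideal A) : Ideal.span {π} * J ≤ Ideal.span {π} :=
  Ideal.mul_le_left

lemma T_mul {I J : Ideal A} {a b : ℕ} {x y : A} (hx : x ∈ J ⊔ I ^ a) (hy : y ∈ J ⊔ I ^ b) :
    x * y ∈ J ⊔ I ^ (a + b) := by
  obtain ⟨x1, hx1, x2, hx2, rfl⟩ := Submodule.mem_sup.mp hx
  obtain ⟨y1, hy1, y2, hy2, rfl⟩ := Submodule.mem_sup.mp hy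
  have e : (x1 + x2) * (y1 + y2) = (x1 * (y1 + y2) + x2 * y1) + x2 * y2 := by ring
  rw [e]
  refine Submodule.add_mem_sup (J.add_mem (J.mul_mem_right _ hx1) (J.mul_mem_left _ hy1)) ?_
  rw [pow_add]
  exact Ideal.mul_mem_mul hx2 hy2

variable {φ : A →ₐ[K] K} {s t : A}

lemma Reg2.dir_mem (h : Reg2 φ s t) {c : K} {π : A}
    (hπ : π - (s - algebraMap K A c * t) ∈ pt φ ^ 2) : π ∈ pt φ := by
  have h1 : π - (s - algebraMap K A c * t) ∈ pt φ := Ideal.pow_le_self two_ne_zero hπ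
  have h2 := Ideal.add_mem _ h1 (Ideal.sub_mem _ h.hs
    ((pt φ).mul_mem_left (algebraMap K A c) h.ht))
  simpa using h2

/-- a constant multiple of `t ^ k` lies in `(π) + m ^ (k+1)` only if the constant is zero -/
lemma Reg2.const_eq_zero (h : Reg2 φ s t) {c : K} {π : A}
    (hπ : π - (s - algebraMap K A c * t) ∈ pt φ ^ 2) {k : ℕ} {a : K}
    (ha : algebraMap K A a * t ^ k ∈ Ideal.span {π} ⊔ pt φ ^ (k + 1)) : a = 0 := by
  by_contra hne
  have ht : t ^ k ∈ Ideal.span {π} ⊔ pt φ ^ (k + 1) :=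
    cancel_unit φ (a := algebraMap K A a) (by simpa using hne) ha
  refine h.nd π (h.dir_mem hπ) k fun r hr => ?_
  obtain ⟨p, -, hp⟩ := exists_val φ h.hs h.ht h.gen k hr
  have h1 := sup_le_sup_right (span_mul_le π (pt φ ^ (k - 1))) (pt φ ^ (k + 1)) (hp c π hπ)
  have h2 := Ideal.add_mem _ h1 (Ideal.mul_mem_left _ (algebraMap K A (p.eval c)) ht)
  simpa using h2

lemma Reg2.sq_step (hK : RealF K) (h : Reg2 φ s t) {n a : ℕ} {w : Fin n → A}
    (hw : ∀ i, w i ∈ pt φ ^ a) (hs : ∑ i, w i ^ 2 ∈ pt φ ^ (2 * a + 1)) (i : Fin n) :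
    w i ∈ pt φ ^ (a + 1) := by
  have := hK.infinite
  choose p hp0 hp using fun i => exists_val φ h.hs h.ht h.gen a (hw i)
  apply hp0
  apply Polynomial.funext
  intro c
  rw [eval_zero]
  refine hK n (fun i => (p i).eval c) ?_ i
  have hπ : (s - algebraMap K A c * t) - (s - algebraMap K A c * t) ∈ pt φ ^ 2 := by simp
  refine h.const_eq_zero hπ (k := 2 * a) ?_
  set π := s - algebraMap K A c * t
  have e : algebraMap K A (∑ i, (p i).eval c ^ 2) * t ^ (2 * a)
      = ∑ i, w i ^ 2 - ∑ i, (w i - algebraMap K A ((p i).eval c) * t ^ a)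
        * (w i + algebraMap K A ((p i).eval c) * t ^ a) := by
    rw [map_sum, Finset.sum_mul, ← Finset.sum_sub_distrib]
    refine Finset.sum_congr rfl fun i _ => ?_
    rw [map_pow]
    ring
  rw [e]
  refine Ideal.sub_mem _ (Ideal.mem_sup_right hs) (Ideal.sum_mem _ fun i _ => ?_)
  have h1 := sup_le_sup_right (span_mul_le π (pt φ ^ (a - 1))) (pt φ ^ (a + 1)) (hp i c π hπ)
  have h2 : w i + algebraMap K A ((p i).eval c) * t ^ a ∈ Ideal.span {π} ⊔ pt φ ^ a :=
    Ideal.mem_sup_right (Ideal.add_mem _ (hw i)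
      (Ideal.mul_mem_left _ _ (Ideal.pow_mem_pow h.ht a)))
  have := T_mul h1 h2
  rwa [show a + 1 + a = 2 * a + 1 by ring] at this

/-- the order of a sum of squares is twice the least order of the terms -/
lemma Reg2.sq (hK : RealF K) (h : Reg2 φ s t) {n a : ℕ} {w : Fin n → A}
    (hs : ∑ i, w i ^ 2 ∈ pt φ ^ (2 * a + 1)) (i : Fin n) : w i ∈ pt φ ^ (a + 1) := by
  have : ∀ b ≤ a + 1, ∀ i, w i ∈ pt φ ^ b := by
    intro b
    induction b with
    | zero => intro _ i; simp
    | succ b ih =>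
      intro hb
      exact h.sq_step hK (ih (by omega)) (Ideal.pow_le_pow_right (by omega) hs)
  exact this _ le_rfl i

lemma avoid [Infinite K] (Y : Finset (A →ₐ[K] K)) (a b : A)
    (hab : ∀ ψ ∈ Y, ψ a ≠ 0 ∨ ψ b ≠ 0) :
    ∃ μ : K, ∀ ψ ∈ Y, ψ (a + algebraMap K A μ * b) ≠ 0 := by
  classical
  obtain ⟨μ, hμ⟩ := Infinite.exists_notMem_finset (Y.image fun ψ => - ψ a / ψ b)
  refine ⟨μ, fun ψ hψ h0 => ?_⟩
  simp only [map_add, map_mul, AlgHom.commutes, Algebra.algebraMap_self, RingHom.id_apply] at h0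
  by_cases hb : ψ b = 0
  · rcases hab ψ hψ with h | h
    · apply h; simpa [hb] using h0
    · exact h hb
  · apply hμ
    refine Finset.mem_image.mpr ⟨ψ, hψ, ?_⟩
    rw [div_eq_iff hb]
    linear_combination -h0

lemma exists_mem_pt_avoid [Infinite K] (φ : A →ₐ[K] K) (Y : Finset (A →ₐ[K] K)) (hY : φ ∉ Y) :
    ∃ h ∈ pt φ, ∀ ψ ∈ Y, ψ h ≠ 0 := by
  classical
  induction Y using Finset.induction_on with
  | empty => exact ⟨0, zero_mem _, by simp⟩
  | insert χ Y hχ ih =>
    rw [Finset.mem_insert, not_or] at hY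
    obtain ⟨h, hh, hhY⟩ := ih hY.2
    have : ¬ pt φ ≤ pt χ := fun hle => hY.1 (eq_of_pt_le hle)
    obtain ⟨b, hb, hb'⟩ := SetLike.not_le_iff_exists.mp this
    obtain ⟨μ, hμ⟩ := avoid (insert χ Y) h b (by
      intro ψ hψ
      rcases Finset.mem_insert.mp hψ with rfl | hψ
      · exact Or.inr hb'
      · exact Or.inl (hhY ψ hψ))
    exact ⟨_, Ideal.add_mem _ hh (Ideal.mul_mem_left _ _ hb), hμ⟩

/-- a regular parameter transversal to `g` -/
structure Param (φ : A →ₐ[K] K) (g : A) (k : ℕ) (π : A) : Prop where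
  mem : π ∈ pt φ
  ne : π ≠ 0
  gen : ∃ r, φ r ≠ 0 ∧ ∀ q ∈ pt φ ^ k, r * q ∈ Ideal.span {g} ⊔ Ideal.span {π} * pt φ ^ (k - 1)
  prime : ∀ r, π ∣ g * r → ∃ a, φ a ≠ 0 ∧ π ∣ a * r

lemma Reg2.exists_param [Infinite K] [IsNoetherianRing A] (h : Reg2 φ s t) {g : A} {k : ℕ}
    (hg : g ∈ pt φ ^ k) (hg' : g ∉ pt φ ^ (k + 1)) (Y : Finset (A →ₐ[K] K)) (hY : φ ∉ Y) :
    ∃ π, Param φ g k π ∧ ∀ ψ ∈ Y, ψ π ≠ 0 := by
  obtain ⟨p, hp0, hp⟩ := exists_val φ h.hs h.ht h.gen k hg
  have hpne : p ≠ 0 := fun h0 => hg' (hp0 h0)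
  obtain ⟨c, hc⟩ : ∃ c, p.eval c ≠ 0 := by
    by_contra hcon
    push Not at hcon
    exact hpne (Polynomial.funext fun c => by simpa using hcon c)
  obtain ⟨b, hb, hbY⟩ := exists_mem_pt_avoid φ Y hY
  obtain ⟨μ, hμ⟩ := avoid Y (s - algebraMap K A c * t) (b ^ 2)
    (fun ψ hψ => Or.inr (by simpa using hbY ψ hψ))
  set π := s - algebraMap K A c * t + algebraMap K A μ * b ^ 2 with hπdef
  have hπ : π - (s - algebraMap K A c * t) ∈ pt φ ^ 2 := by
    have : π - (s - algebraMap K A c * t) = algebraMap K A μ * b ^ 2 := by rw [hπdef]; ring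
    rw [this]
    exact Ideal.mul_mem_left _ _ (Ideal.pow_mem_pow hb 2)
  have hgπ := hp c π hπ
  refine ⟨π, ⟨h.dir_mem hπ, ?_, ?_, ?_⟩, hμ⟩
  · intro h0
    refine h.nd t h.ht 1 fun r hr => ?_
    obtain ⟨q, -, hq⟩ := exists_val φ h.hs h.ht h.gen 1 hr
    have h1 := hq c π hπ
    rw [h0] at h1
    simp only [Ideal.span_singleton_zero, Ideal.bot_mul, bot_sup_eq, pow_one] at h1
    have h2 : algebraMap K A (q.eval c) * t ∈ Ideal.span {t} :=
      Ideal.mul_mem_left _ _ (Ideal.mem_span_singleton_self t)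
    have := Submodule.add_mem_sup h2 h1
    simpa using this
  · apply nakayama φ
    rw [← pow_succ']
    intro r hr
    obtain ⟨q, -, hq⟩ := exists_val φ h.hs h.ht h.gen k hr
    have h1 := hq c π hπ
    have hle : Ideal.span {π} * pt φ ^ (k - 1) ⊔ pt φ ^ (k + 1)
        ≤ (Ideal.span {g} ⊔ Ideal.span {π} * pt φ ^ (k - 1)) ⊔ pt φ ^ (k + 1) :=
      sup_le_sup_right le_sup_right _
    have ht : t ^ k ∈ (Ideal.span {g} ⊔ Ideal.span {π} * pt φ ^ (k - 1)) ⊔ pt φ ^ (k + 1) := by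
      refine cancel_unit φ (a := algebraMap K A (p.eval c)) (by simpa using hc) ?_
      have e : algebraMap K A (p.eval c) * t ^ k = g - (g - algebraMap K A (p.eval c) * t ^ k) := by
        ring
      rw [e]
      refine Ideal.sub_mem _ (Ideal.mem_sup_left (Ideal.mem_sup_left
        (Ideal.mem_span_singleton_self g))) ?_
      exact hle hgπ
    have h2 := Ideal.add_mem _ (hle h1)
      (Ideal.mul_mem_left _ (algebraMap K A (q.eval c)) ht)
    simpa using h2
  · intro r hr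
    have key : ∀ i, r ∈ Ideal.span {π} ⊔ pt φ ^ i := by
      intro i
      induction i with
      | zero => simp
      | succ i ih =>
        obtain ⟨r0, hr0, r1, hr1, hr01⟩ := Submodule.mem_sup.mp ih
        obtain ⟨q, -, hq⟩ := exists_val φ h.hs h.ht h.gen i hr1
        have h1 := sup_le_sup_right (span_mul_le π (pt φ ^ (i - 1))) (pt φ ^ (i + 1)) (hq c π hπ)
        have h2 : r - algebraMap K A (q.eval c) * t ^ i ∈ Ideal.span {π} ⊔ pt φ ^ (i + 1) := by
          have := Ideal.add_mem _ (Ideal.mem_sup_left hr0) h1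
          rw [← hr01]
          convert this using 1
          ring
        have h3 := sup_le_sup_right (span_mul_le π (pt φ ^ (k - 1))) (pt φ ^ (k + 1)) hgπ
        have h4 : p.eval c * q.eval c = 0 := by
          refine h.const_eq_zero hπ (k := k + i) ?_
          have e : algebraMap K A (p.eval c * q.eval c) * t ^ (k + i)
              = g * r - (g - algebraMap K A (p.eval c) * t ^ k) * r
                - (algebraMap K A (p.eval c) * t ^ k)
                  * (r - algebraMap K A (q.eval c) * t ^ i) := by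
            rw [map_mul]; ring
          rw [e]
          refine Ideal.sub_mem _ (Ideal.sub_mem _ ?_ ?_) ?_
          · exact Ideal.mem_sup_left (Ideal.mem_span_singleton.mpr hr)
          · have := T_mul h3 ih
            rwa [show k + 1 + i = k + i + 1 by ring] at this
          · exact T_mul (a := k) (b := i + 1) (Ideal.mem_sup_right
              (Ideal.mul_mem_left _ _ (Ideal.pow_mem_pow h.ht k))) h2
        have h5 : q.eval c = 0 := (mul_eq_zero.mp h4).resolve_left hc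
        simpa [h5] using h2
    obtain ⟨a, ha, har⟩ := krull φ key
    exact ⟨a, ha, Ideal.mem_span_singleton.mp har⟩

variable {g π : A} {k : ℕ}

lemma Param.pow_dvd [IsDomain A] (h : Param φ g k π) (N : ℕ) :
    ∀ r, π ^ N ∣ g * r → ∃ a, φ a ≠ 0 ∧ π ^ N ∣ a * r := by
  induction N with
  | zero => intro r _; exact ⟨1, by simp, by simp⟩
  | succ N ih =>
    intro r hr
    obtain ⟨a, ha, r', hr'⟩ := h.prime r ((dvd_pow_self π (Nat.succ_ne_zero N)).trans hr)
    have h1 : π ^ N ∣ g * r' := by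
      have h2 : π * π ^ N ∣ π * (g * r') := by
        have : π * (g * r') = a * (g * r) := by linear_combination -g * hr'
        rw [this, ← pow_succ']
        exact Dvd.dvd.mul_left hr a
      exact (mul_dvd_mul_iff_left h.ne).mp h2
    obtain ⟨a', ha', r'', hr''⟩ := ih r' h1
    refine ⟨a' * a, by simp [ha, ha'], r'', ?_⟩
    rw [pow_succ']
    linear_combination a' * hr' + π * hr''

lemma Param.gen_pow (h : Param φ g k π) (hk : 1 ≤ k) (j : ℕ) :
    ∀ w ∈ pt φ ^ (k + j), ∃ a, φ a ≠ 0 ∧ ∃ x y, a * w = g * x + π ^ (j + 1) * y := by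
  obtain ⟨r, hr, hgen⟩ := h.gen
  have step : ∀ j, ∀ w ∈ pt φ ^ (k + j), ∃ x, ∃ y ∈ pt φ ^ (k - 1 + j),
      r * w = g * x + π * y := by
    intro j w hw
    rw [pow_add] at hw
    refine Submodule.mul_induction_on hw ?_ ?_
    · intro q hq z hz
      obtain ⟨u, hu, v, hv, huv⟩ := Submodule.mem_sup.mp (hgen q hq)
      obtain ⟨x, rfl⟩ := Ideal.mem_span_singleton'.mp hu
      obtain ⟨y, hy, rfl⟩ := Ideal.mem_span_singleton_mul.mp hv
      refine ⟨x * z, y * z, ?_, ?_⟩
      · rw [pow_add]; exact Ideal.mul_mem_mul hy hz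
      · linear_combination -z * huv
    · rintro w1 w2 ⟨x1, y1, hy1, h1⟩ ⟨x2, y2, hy2, h2⟩
      exact ⟨x1 + x2, y1 + y2, Ideal.add_mem _ hy1 hy2, by linear_combination h1 + h2⟩
  induction j with
  | zero =>
    intro w hw
    obtain ⟨x, y, -, hxy⟩ := step 0 w hw
    exact ⟨r, hr, x, y, by simpa using hxy⟩
  | succ j ih =>
    intro w hw
    obtain ⟨x, y, hy, hxy⟩ := step (j + 1) w hw
    rw [show k - 1 + (j + 1) = k + j by omega] at hy
    obtain ⟨a, ha, x', y', h'⟩ := ih y hy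
    refine ⟨a * r, by simp [ha, hr], a * x + π * x', y', ?_⟩
    linear_combination a * hxy + π * h'

/-- a non-maximal prime is locally principal -/
lemma Reg2.prime_principal [Infinite K] [IsNoetherianRing A] [IsDomain A] (h : Reg2 φ s t)
    {P : Ideal A} (hP : P.IsPrime) (hle : P ≤ pt φ) (hne : P ≠ pt φ) :
    ∃ p ∈ P, ∀ q ∈ P, ∃ a, φ a ≠ 0 ∧ p ∣ a * q := by
  classical
  by_cases h0 : P = ⊥
  · refine ⟨0, P.zero_mem, fun q hq => ⟨1, by simp, ?_⟩⟩
    rw [h0, Ideal.mem_bot] at hq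
    simp [hq]
  have hex : ∃ N, ¬ P ≤ pt φ ^ N := by
    by_contra hcon
    push Not at hcon
    apply h0
    rw [eq_bot_iff, ← Ideal.iInf_pow_eq_bot_of_isDomain (pt φ) (pt_ne_top φ)]
    exact le_iInf hcon
  have hN := Nat.find_spec hex
  have hpos : Nat.find hex ≠ 0 := by
    intro h1
    rw [h1] at hN
    simp at hN
  obtain ⟨k, hk⟩ := Nat.exists_eq_succ_of_ne_zero hpos
  have hPk : P ≤ pt φ ^ k := by
    have := Nat.find_min hex (m := k) (by omega)
    exact not_not.mp this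
  rw [hk] at hN
  obtain ⟨g, hg, hg'⟩ := SetLike.not_le_iff_exists.mp hN
  obtain ⟨π, hπ, -⟩ := h.exists_param (hPk hg) hg' ∅ (by simp)
  obtain ⟨r, hr, hgen⟩ := hπ.gen
  have hrP : r ∉ P := fun hrP => hr (hle hrP)
  have hπP : π ∉ P := by
    intro hπP
    apply hne
    refine le_antisymm hle ?_
    have h1 : pt φ ^ k ≤ P := by
      intro q hq
      have h2 : r * q ∈ P := by
        refine (sup_le ?_ ?_ : _ ≤ P) (hgen q hq)
        · exact (Ideal.span_singleton_le_iff_mem _).mpr hg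
        · exact (span_mul_le _ _).trans ((Ideal.span_singleton_le_iff_mem _).mpr hπP)
      exact (hP.mem_or_mem h2).resolve_left hrP
    rcases k with _ | k
    · exact absurd (eq_top_iff.mpr (by simpa using h1)) hP.ne_top
    · exact (Ideal.IsPrime.pow_le_iff (Nat.succ_ne_zero k)).mp h1
  have hnak : P ≤ Ideal.span {g} ⊔ pt φ * P := by
    intro q hq
    obtain ⟨u, hu, v, hv, huv⟩ := Submodule.mem_sup.mp (hgen q (hPk hq))
    obtain ⟨y, -, rfl⟩ := Ideal.mem_span_singleton_mul.mp hv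
    have hy : y ∈ P := by
      have h2 : π * y ∈ P := by
        have : π * y = r * q - u := by linear_combination huv
        rw [this]
        exact P.sub_mem (P.mul_mem_left _ hq) ((Ideal.span_singleton_le_iff_mem _).mpr hg hu)
      exact (hP.mem_or_mem h2).resolve_left hπP
    have h3 : r * q ∈ Ideal.span {g} ⊔ pt φ * P := by
      rw [← huv]
      exact Submodule.add_mem_sup hu (Ideal.mul_mem_mul hπ.mem hy)
    obtain ⟨u', hu'⟩ := exists_inv_mod φ hr 1
    rw [pow_one] at hu'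
    have : q = u' * (r * q) + (1 - u' * r) * q := by ring
    rw [this]
    exact Ideal.add_mem _ (Ideal.mul_mem_left _ _ h3)
      (Ideal.mem_sup_right (Ideal.mul_mem_mul hu' hq))
  obtain ⟨a, ha, haP⟩ := nakayama φ hnak
  exact ⟨g, hg, fun q hq => ⟨a, ha, Ideal.mem_span_singleton.mp (haP q hq)⟩⟩

end Pool.Agent.MP_d2168f_ag
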